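import Pool.Agent.W2helper54.SOS.Norm

/-!
# Piece K6 of MP_ce7760_an : case B (`u = 0`)
-/

open MvPolynomial

namespace Pool.Agent.W2helper54.SOS

open Pool.Agent.W2helper74.SOS

theorem th3 (Θ a : Fin 4 → ℂ) : (Θ 0 - Θ 2) * q3 a 1 0 + (Θ 3 - Θ 1) * q3 a 0 1 +
    (Θ 1 + Θ 2) / 2 * q3 a 1 1 + (Θ 2 - Θ 1) / 2 * q3 a 1 (-1) = ∑ i, Θ i * a i := by
  simp only [q3, Fin.sum_univ_four]
  ring

theorem mul_star_normSq (z : ℂ) : z * star z = ((Complex.normSq z : ℝ) : ℂ) := by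
  rw [← Complex.mul_conj]; rfl

theorem functional_apply (Θ : Fin 4 → ℂ) (t1 t2 t3 : Fin 4 → ℂ) (f1 f2 f3 f4 : Fin 3 → ℂ)
    (A B : ℝ)
    (h : ∀ x y X Y, q3 t1 x y * q3 (cj t1) X Y + q3 t2 x y * q3 (cj t2) X Y +
      q3 t3 x y * q3 (cj t3) X Y =
      (x * X + y * Y) * (q2 f1 x y * q2 (cj f1) X Y + q2 f2 x y * q2 (cj f2) X Y +
        q2 f3 x y * q2 (cj f3) X Y + q2 f4 x y * q2 (cj f4) X Y) +
      (x * X + y * Y) ^ 2 * (A * x * X + B * y * Y))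
    (h1 : ∑ i, Θ i * t1 i = 0) (h2 : ∑ i, Θ i * t2 i = 0) (h3 : ∑ i, Θ i * t3 i = 0) :
    A * (Complex.normSq (Θ 0) + 2 * Complex.normSq (Θ 1) + Complex.normSq (Θ 2)) +
      B * (Complex.normSq (Θ 1) + 2 * Complex.normSq (Θ 2) + Complex.normSq (Θ 3)) ≤ 0 := by
  have key : ∀ X Y : ℂ, 0 =
      ((Θ 0 * f1 0 + Θ 1 * f1 1 + Θ 2 * f1 2) * X + (Θ 1 * f1 0 + Θ 2 * f1 1 + Θ 3 * f1 2) * Y) *
        q2 (cj f1) X Y +
      ((Θ 0 * f2 0 + Θ 1 * f2 1 + Θ 2 * f2 2) * X + (Θ 1 * f2 0 + Θ 2 * f2 1 + Θ 3 * f2 2) * Y) *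
        q2 (cj f2) X Y +
      ((Θ 0 * f3 0 + Θ 1 * f3 1 + Θ 2 * f3 2) * X + (Θ 1 * f3 0 + Θ 2 * f3 1 + Θ 3 * f3 2) * Y) *
        q2 (cj f3) X Y +
      ((Θ 0 * f4 0 + Θ 1 * f4 1 + Θ 2 * f4 2) * X + (Θ 1 * f4 0 + Θ 2 * f4 1 + Θ 3 * f4 2) * Y) *
        q2 (cj f4) X Y +
      (A * (Θ 0 * X ^ 3 + 2 * Θ 1 * X ^ 2 * Y + Θ 2 * X * Y ^ 2) +
        B * (Θ 1 * X ^ 2 * Y + 2 * Θ 2 * X * Y ^ 2 + Θ 3 * Y ^ 3)) := by
    intro X Y
    have a1 := h 1 0 X Y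
    have a2 := h 0 1 X Y
    have a3 := h 1 1 X Y
    have a4 := h 1 (-1) X Y
    have b1 := th3 Θ t1
    have b2 := th3 Θ t2
    have b3 := th3 Θ t3
    rw [h1] at b1
    rw [h2] at b2
    rw [h3] at b3
    generalize q3 (cj t1) X Y = T1 at *
    generalize q3 (cj t2) X Y = T2 at *
    generalize q3 (cj t3) X Y = T3 at *
    generalize q2 (cj f1) X Y = F1 at *
    generalize q2 (cj f2) X Y = F2 at *
    generalize q2 (cj f3) X Y = F3 at *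
    generalize q2 (cj f4) X Y = F4 at *
    generalize q3 t1 1 0 = t11 at *
    generalize q3 t1 0 1 = t12 at *
    generalize q3 t1 1 1 = t13 at *
    generalize q3 t1 1 (-1) = t14 at *
    generalize q3 t2 1 0 = t21 at *
    generalize q3 t2 0 1 = t22 at *
    generalize q3 t2 1 1 = t23 at *
    generalize q3 t2 1 (-1) = t24 at *
    generalize q3 t3 1 0 = t31 at *
    generalize q3 t3 0 1 = t32 at *
    generalize q3 t3 1 1 = t33 at *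
    generalize q3 t3 1 (-1) = t34 at *
    simp only [q2] at a1 a2 a3 a4
    linear_combination (Θ 0 - Θ 2) * a1 + (Θ 3 - Θ 1) * a2 + (Θ 1 + Θ 2) / 2 * a3 +
      (Θ 2 - Θ 1) / 2 * a4 - T1 * b1 - T2 * b2 - T3 * b3
  have key2 : (0 : ℂ) =
      ((Θ 0 * f1 0 + Θ 1 * f1 1 + Θ 2 * f1 2) * star (Θ 0 * f1 0 + Θ 1 * f1 1 + Θ 2 * f1 2) +
       (Θ 1 * f1 0 + Θ 2 * f1 1 + Θ 3 * f1 2) * star (Θ 1 * f1 0 + Θ 2 * f1 1 + Θ 3 * f1 2)) +
      ((Θ 0 * f2 0 + Θ 1 * f2 1 + Θ 2 * f2 2) * star (Θ 0 * f2 0 + Θ 1 * f2 1 + Θ 2 * f2 2) +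
       (Θ 1 * f2 0 + Θ 2 * f2 1 + Θ 3 * f2 2) * star (Θ 1 * f2 0 + Θ 2 * f2 1 + Θ 3 * f2 2)) +
      ((Θ 0 * f3 0 + Θ 1 * f3 1 + Θ 2 * f3 2) * star (Θ 0 * f3 0 + Θ 1 * f3 1 + Θ 2 * f3 2) +
       (Θ 1 * f3 0 + Θ 2 * f3 1 + Θ 3 * f3 2) * star (Θ 1 * f3 0 + Θ 2 * f3 1 + Θ 3 * f3 2)) +
      ((Θ 0 * f4 0 + Θ 1 * f4 1 + Θ 2 * f4 2) * star (Θ 0 * f4 0 + Θ 1 * f4 1 + Θ 2 * f4 2) +
       (Θ 1 * f4 0 + Θ 2 * f4 1 + Θ 3 * f4 2) * star (Θ 1 * f4 0 + Θ 2 * f4 1 + Θ 3 * f4 2)) +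
      (A * (Θ 0 * star (Θ 0) + 2 * (Θ 1 * star (Θ 1)) + Θ 2 * star (Θ 2)) +
        B * (Θ 1 * star (Θ 1) + 2 * (Θ 2 * star (Θ 2)) + Θ 3 * star (Θ 3))) := by
    have k1 := key 1 0
    have k2 := key 0 1
    have k3 := key 1 1
    have k4 := key 1 (-1)
    simp only [q2, cj] at k1 k2 k3 k4
    simp only [star_add, star_mul']
    linear_combination (star (Θ 0) - star (Θ 2)) * k1 + (star (Θ 3) - star (Θ 1)) * k2 +
      (star (Θ 1) + star (Θ 2)) / 2 * k3 + (star (Θ 2) - star (Θ 1)) / 2 * k4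
  simp only [mul_star_normSq] at key2
  have key3 := congrArg Complex.re key2
  norm_cast at key3
  have p : ∀ z : ℂ, 0 ≤ Complex.normSq z := Complex.normSq_nonneg
  linarith [p (Θ 0 * f1 0 + Θ 1 * f1 1 + Θ 2 * f1 2), p (Θ 1 * f1 0 + Θ 2 * f1 1 + Θ 3 * f1 2),
    p (Θ 0 * f2 0 + Θ 1 * f2 1 + Θ 2 * f2 2), p (Θ 1 * f2 0 + Θ 2 * f2 1 + Θ 3 * f2 2),
    p (Θ 0 * f3 0 + Θ 1 * f3 1 + Θ 2 * f3 2), p (Θ 1 * f3 0 + Θ 2 * f3 1 + Θ 3 * f3 2),
    p (Θ 0 * f4 0 + Θ 1 * f4 1 + Θ 2 * f4 2), p (Θ 1 * f4 0 + Θ 2 * f4 1 + Θ 3 * f4 2)]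

theorem q2_zero (x y : ℂ) : q2 0 x y = 0 := by simp [q2]

theorem q3_zero (x y : ℂ) : q3 0 x y = 0 := by simp [q3]

theorem cj_zero {n : ℕ} : cj (0 : Fin n → ℂ) = 0 := by ext i; simp [cj]

theorem q3_cj_zero (x y : ℂ) : q3 (cj 0) x y = 0 := by rw [cj_zero, q3_zero]

theorem q2_cj_zero (x y : ℂ) : q2 (cj 0) x y = 0 := by rw [cj_zero, q2_zero]

/-- case (B1) -/
theorem caseB1 {r1 r2 κ : Fin 3 → ℂ} {t1 t2 t3 : Fin 4 → ℂ}
    (h : NS 0 0 0 r1 r2 κ t1 t2 t3) : False := by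
  obtain ⟨Θ, hΘ, h1, h2, h3⟩ := exists_functional t1 t2 t3
  have := functional_apply Θ t1 t2 t3 0 r1 r2 κ 1 1 (fun x y X Y => by
    rw [h.e0 x y X Y]
    push_cast
    ring) h1 h2 h3
  apply hΘ
  have p : ∀ z : ℂ, 0 ≤ Complex.normSq z := Complex.normSq_nonneg
  ext i
  have hz : Complex.normSq (Θ i) = 0 := by
    apply le_antisymm _ (p _)
    fin_cases i <;> simp <;> linarith [p (Θ 0), p (Θ 1), p (Θ 2), p (Θ 3)]
  simpa using hz

/-- case (B2) -/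
theorem caseB2 {g1 g2 : ℝ} (hg1 : g1 ≠ 0) (hg2 : g2 ≠ 0) {r1 r2 κ : Fin 3 → ℂ}
    {t1 t2 t3 : Fin 4 → ℂ} (h : NS g1 g2 0 r1 r2 κ t1 t2 t3) : False := by
  have ht1 : t1 = 0 := q3_eq_zero fun x y => by
    have := h.e21 x y
    rw [q2_zero, mul_zero] at this
    exact (mul_eq_zero.mp this).resolve_left (by exact_mod_cast hg1)
  have ht2 : t2 = 0 := q3_eq_zero fun x y => by
    have := h.e22 x y
    rw [q2_zero, mul_zero] at this
    exact (mul_eq_zero.mp this).resolve_left (by exact_mod_cast hg2)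
  subst ht1 ht2
  have ht3 : t3 = 0 := by
    rcases (isPoly_q3 t3).mul_eq_zero (isPoly_q3 (st3 t3)) (fun x y => by
      have := h.e0 x y (-y) x
      simp only [q3_zero, zero_mul, zero_add] at this
      rw [q3_st, this]
      ring) with h0 | h0
    · exact q3_eq_zero h0
    · exact st3_zero h0
  subst ht3
  rcases h.nz 1 0 (Or.inl one_ne_zero) with h0 | h0 | h0 <;> exact h0 (q3_zero _ _)

/-- case (B3) -/
theorem caseB3 {g2 : ℝ} (hg2 : 0 < g2) {r1 r2 κ : Fin 3 → ℂ}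
    {t1 t2 t3 : Fin 4 → ℂ} (h : NS 0 g2 0 r1 r2 κ t1 t2 t3) : False := by
  have hg2' : (g2 : ℂ) ≠ 0 := by exact_mod_cast hg2.ne'
  have ht2 : t2 = 0 := q3_eq_zero fun x y => by
    have := h.e22 x y
    rw [q2_zero, mul_zero] at this
    exact (mul_eq_zero.mp this).resolve_left hg2'
  subst ht2
  have hnz : ∀ x y : ℂ, (x ≠ 0 ∨ y ≠ 0) → q3 t1 x y ≠ 0 ∨ q3 t3 x y ≠ 0 := by
    intro x y hxy
    rcases h.nz x y hxy with h0 | h0 | h0
    · exact Or.inl h0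
    · exact absurd (q3_zero _ _) h0
    · exact Or.inr h0
  have a1 : ∀ x y, q3 t1 x y * q3 (st3 t1) x y + q3 t3 x y * q3 (st3 t3) x y = 0 := by
    intro x y
    have := h.e0 x y (-y) x
    simp only [q3_zero, zero_mul] at this
    rw [q3_st, q3_st]
    linear_combination this
  have a2 : ∀ x y, q2 r1 x y * q3 (st3 t1) x y + q2 κ x y * q3 (st3 t3) x y = 0 := by
    intro x y
    have := h.e1 x y (-y) x
    simp only [q3_cj_zero, mul_zero] at this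
    rw [q3_st, q3_st]
    linear_combination this
  have ht3 : t3 ≠ 0 := by
    rintro rfl
    obtain ⟨x, y, hxy, h0⟩ := q3_root t1
    rcases hnz x y hxy with h1 | h1
    · exact h1 h0
    · exact h1 (q3_zero _ _)
  have a3 : ∀ x y, q2 r1 x y * q3 t3 x y = q2 κ x y * q3 t1 x y := by
    have hst : ∃ x y, q3 (st3 t3) x y ≠ 0 := by
      by_contra hcon
      push Not at hcon
      exact ht3 (st3_zero hcon)
    refine (isPoly_q3 (st3 t3)).cancel ((isPoly_q2 r1).mul (isPoly_q3 t3))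
      ((isPoly_q2 κ).mul (isPoly_q3 t1)) hst ?_
    intro x y
    linear_combination q2 r1 x y * a1 x y - q3 t1 x y * a2 x y
  have hr1 : r1 = 0 := q2_eq_zero (quad_zero a3 (fun x y hxy h0 => by
    rcases hnz x y hxy with h1 | h1
    · exact absurd h0 h1
    · exact h1))
  have hκ : κ = 0 := q2_eq_zero (quad_zero (r := κ) (κ := r1) (T := t1) (t := t3)
    (fun x y => (a3 x y).symm) (fun x y hxy h0 => by
    rcases hnz x y hxy with h1 | h1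
    · exact h1
    · exact absurd h0 h1))
  subst hr1 hκ
  have hr2 : ∀ X Y, q2 (cj r2) X Y = 0 := by
    have : ∀ X Y : ℂ, Y * q2 (cj r2) X Y = 0 := by
      intro X Y
      have h1 := h.e1 0 1 X Y
      simp only [q3_cj_zero, q2_cj_zero, q2_zero, mul_zero, zero_mul, add_zero, mul_one,
        zero_add, one_mul] at h1
      have h2 : (g2 : ℂ) * (Y * q2 (cj r2) X Y) = 0 := by linear_combination -h1
      exact (mul_eq_zero.mp h2).resolve_left hg2'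
    rcases isPoly_snd.mul_eq_zero (isPoly_q2 (cj r2)) this with h0 | h0
    · exact absurd (h0 0 1) one_ne_zero
    · exact h0
  have hE : ∀ x y X Y, q3 t1 x y * q3 (cj t1) X Y + q3 0 x y * q3 (cj 0) X Y +
      q3 t3 x y * q3 (cj t3) X Y =
      (x * X + y * Y) * (q2 0 x y * q2 (cj 0) X Y + q2 0 x y * q2 (cj 0) X Y +
        q2 0 x y * q2 (cj 0) X Y + q2 0 x y * q2 (cj 0) X Y) +
      (x * X + y * Y) ^ 2 * (((1 : ℝ) : ℂ) * x * X + ((1 - g2 ^ 2 : ℝ) : ℂ) * y * Y) := by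
    intro x y X Y
    rw [h.e0 x y X Y, hr2]
    simp only [q2_zero]
    push_cast
    ring
  have p : ∀ z : ℂ, 0 ≤ Complex.normSq z := Complex.normSq_nonneg
  rcases le_or_gt (g2 ^ 2) 1 with hg | hg
  · obtain ⟨Θ, hΘ, h1, h2, h3⟩ := exists_functional t1 t3 ![0, 0, 0, 1]
    have h3' : Θ 3 = 0 := by simpa [Fin.sum_univ_four] using h3
    have := functional_apply Θ t1 0 t3 0 0 0 0 1 (1 - g2 ^ 2) hE h1 (by simp) h2
    have hB : 0 ≤ (1 - g2 ^ 2) * (Complex.normSq (Θ 1) + 2 * Complex.normSq (Θ 2) +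
        Complex.normSq (Θ 3)) :=
      mul_nonneg (by linarith) (by linarith [p (Θ 1), p (Θ 2), p (Θ 3)])
    apply hΘ
    ext i
    have hz : Complex.normSq (Θ i) = 0 := by
      apply le_antisymm _ (p _)
      fin_cases i
      · simp only [Fin.zero_eta]; linarith [p (Θ 0), p (Θ 1), p (Θ 2), p (Θ 3)]
      · simp only [Fin.mk_one]; linarith [p (Θ 0), p (Θ 1), p (Θ 2), p (Θ 3)]
      · show Complex.normSq (Θ 2) ≤ 0
        linarith [p (Θ 0), p (Θ 1), p (Θ 2), p (Θ 3)]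
      · show Complex.normSq (Θ 3) ≤ 0
        rw [h3']; simp
    simpa using hz
  · have h1 := hE 0 1 0 1
    have e1 : q3 t1 0 1 * q3 (cj t1) 0 1 = ((Complex.normSq (t1 3) : ℝ) : ℂ) := by
      rw [← mul_star_normSq]; simp [q3, cj]
    have e3 : q3 t3 0 1 * q3 (cj t3) 0 1 = ((Complex.normSq (t3 3) : ℝ) : ℂ) := by
      rw [← mul_star_normSq]; simp [q3, cj]
    rw [e1, e3] at h1
    simp only [q3_zero, q2_zero] at h1
    have h2 : ((Complex.normSq (t1 3) + Complex.normSq (t3 3) : ℝ) : ℂ) =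
        ((1 - g2 ^ 2 : ℝ) : ℂ) := by
      push_cast at h1 ⊢
      linear_combination h1
    have h3 : Complex.normSq (t1 3) + Complex.normSq (t3 3) = 1 - g2 ^ 2 := by exact_mod_cast h2
    linarith [p (t1 3), p (t3 3)]

end Pool.Agent.W2helper54.SOS
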