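import Pool.Agent.W2helper54.SOS.Norm

/-!
# Piece K6 of MP_ce7760_an : changes of coordinates
-/

open MvPolynomial

namespace Pool.Agent.W2helper54.SOS

open Pool.Agent.W2helper74.SOS

theorem inner_eq (x y : EuclideanSpace ℂ (Fin 4)) :
    inner ℂ x y = ∑ j, star (x j) * y j := by
  simp [PiLp.inner_apply, mul_comm]

theorem exists_unitary (c L0 L1 : Fin 4 → ℂ) (hc : ∑ j, c j * star (c j) = 1)
    (h0 : ∑ j, L0 j * star (c j) = 0) (h1 : ∑ j, L1 j * star (c j) = 0)
    (h01 : ∑ j, L0 j * star (L1 j) = 0) :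
    ∃ (U : Matrix (Fin 4) (Fin 4) ℂ) (g1 g2 : ℝ), U.conjTranspose * U = 1 ∧ 0 ≤ g1 ∧ 0 ≤ g2 ∧
      g1 ^ 2 = ∑ j, Complex.normSq (L0 j) ∧ g2 ^ 2 = ∑ j, Complex.normSq (L1 j) ∧
      (∀ i, ∑ j, U i j * c j = (![1, 0, 0, 0] : Fin 4 → ℂ) i) ∧
      (∀ i, ∑ j, U i j * L0 j = (![0, (g1 : ℂ), 0, 0] : Fin 4 → ℂ) i) ∧
      (∀ i, ∑ j, U i j * L1 j = (![0, 0, (g2 : ℂ), 0] : Fin 4 → ℂ) i) := by
  set C : EuclideanSpace ℂ (Fin 4) := WithLp.toLp 2 c with hC
  set M0 : EuclideanSpace ℂ (Fin 4) := WithLp.toLp 2 L0 with hM0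
  set M1 : EuclideanSpace ℂ (Fin 4) := WithLp.toLp 2 L1 with hM1
  have iCC : inner ℂ C C = (1 : ℂ) := by
    rw [inner_eq, ← hc]
    exact Finset.sum_congr rfl fun j _ => mul_comm _ _
  have iC0 : inner ℂ C M0 = (0 : ℂ) := by
    rw [inner_eq, ← h0]
    exact Finset.sum_congr rfl fun j _ => mul_comm _ _
  have iC1 : inner ℂ C M1 = (0 : ℂ) := by
    rw [inner_eq, ← h1]
    exact Finset.sum_congr rfl fun j _ => mul_comm _ _
  have i10 : inner ℂ M1 M0 = (0 : ℂ) := by
    rw [inner_eq, ← h01]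
    exact Finset.sum_congr rfl fun j _ => mul_comm _ _
  have i0C : inner ℂ M0 C = (0 : ℂ) := inner_eq_zero_symm.mp iC0
  have i1C : inner ℂ M1 C = (0 : ℂ) := inner_eq_zero_symm.mp iC1
  have i01 : inner ℂ M0 M1 = (0 : ℂ) := inner_eq_zero_symm.mp i10
  have nC : ‖C‖ = 1 := by
    have h := inner_self_eq_norm_sq_to_K (𝕜 := ℂ) C
    rw [iCC] at h
    have h' : (1 : ℝ) = ‖C‖ ^ 2 := by
      have := congrArg Complex.re h
      simpa [← Complex.ofReal_pow] using this
    nlinarith [norm_nonneg C]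
  set e : Fin 4 → EuclideanSpace ℂ (Fin 4) :=
    ![C, ((‖M0‖⁻¹ : ℝ) : ℂ) • M0, ((‖M1‖⁻¹ : ℝ) : ℂ) • M1, 0] with he
  set s : Set (Fin 4) := {i | i = 0 ∨ (i = 1 ∧ M0 ≠ 0) ∨ (i = 2 ∧ M1 ≠ 0)} with hs
  have nrm : ∀ M : EuclideanSpace ℂ (Fin 4), M ≠ 0 → ‖((‖M‖⁻¹ : ℝ) : ℂ) • M‖ = 1 := by
    intro M hM
    rw [norm_smul, Complex.norm_real, norm_inv, norm_norm, inv_mul_cancel₀]
    exact norm_ne_zero_iff.mpr hM
  have horth : Orthonormal ℂ (s.domRestrict e) := by
    refine ⟨?_, ?_⟩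
    · rintro ⟨i, hi⟩
      rcases hi with rfl | ⟨rfl, hi⟩ | ⟨rfl, hi⟩
      · exact nC
      · exact nrm _ hi
      · exact nrm _ hi
    · rintro ⟨i, hi⟩ ⟨j, hj⟩ hij
      have hij' : i ≠ j := fun h => hij (Subtype.ext h)
      rcases hi with rfl | ⟨rfl, hi⟩ | ⟨rfl, hi⟩ <;> rcases hj with rfl | ⟨rfl, hj⟩ | ⟨rfl, hj⟩
      · exact absurd rfl hij'
      · simp [he, Set.domRestrict, inner_smul_right, iC0]
      · simp [he, Set.domRestrict, inner_smul_right, iC1]
      · simp [he, Set.domRestrict, inner_smul_left, i0C]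
      · exact absurd rfl hij'
      · simp [he, Set.domRestrict, inner_smul_left, inner_smul_right, i01]
      · simp [he, Set.domRestrict, inner_smul_left, i1C]
      · simp [he, Set.domRestrict, inner_smul_left, inner_smul_right, i10]
      · exact absurd rfl hij'
  obtain ⟨b, hb⟩ := horth.exists_orthonormalBasis_extension_of_card_eq (by simp)
  have hb0 : b 0 = C := hb 0 (Or.inl rfl)
  have hb1 : M0 = ((‖M0‖ : ℝ) : ℂ) • b 1 := by
    by_cases h : M0 = 0
    · rw [h]; simp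
    · rw [hb 1 (Or.inr (Or.inl ⟨rfl, h⟩))]
      show M0 = ((‖M0‖ : ℝ) : ℂ) • (((‖M0‖⁻¹ : ℝ) : ℂ) • M0)
      rw [smul_smul, ← Complex.ofReal_mul, mul_inv_cancel₀ (norm_ne_zero_iff.mpr h)]
      simp
  have hb2 : M1 = ((‖M1‖ : ℝ) : ℂ) • b 2 := by
    by_cases h : M1 = 0
    · rw [h]; simp
    · rw [hb 2 (Or.inr (Or.inr ⟨rfl, h⟩))]
      show M1 = ((‖M1‖ : ℝ) : ℂ) • (((‖M1‖⁻¹ : ℝ) : ℂ) • M1)
      rw [smul_smul, ← Complex.ofReal_mul, mul_inv_cancel₀ (norm_ne_zero_iff.mpr h)]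
      simp
  have hbb : ∀ i k, inner ℂ (b i) (b k) = if i = k then (1 : ℂ) else 0 := fun i k =>
    orthonormal_iff_ite.mp b.orthonormal i k
  refine ⟨Matrix.of fun i j => star (b i j), ‖M0‖, ‖M1‖, ?_, norm_nonneg _, norm_nonneg _,
    ?_, ?_, ?_, ?_, ?_⟩
  · rw [mul_eq_one_comm]
    ext i k
    rw [Matrix.mul_apply, Matrix.one_apply, ← hbb i k, inner_eq]
    refine Finset.sum_congr rfl fun j _ => ?_
    simp [Matrix.conjTranspose_apply]
  · rw [EuclideanSpace.norm_sq_eq]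
    exact Finset.sum_congr rfl fun j _ => by rw [Complex.normSq_eq_norm_sq]
  · rw [EuclideanSpace.norm_sq_eq]
    exact Finset.sum_congr rfl fun j _ => by rw [Complex.normSq_eq_norm_sq]
  · intro i
    have : ∑ j, (Matrix.of fun i j => star (b i j)) i j * c j = inner ℂ (b i) C := by
      rw [inner_eq]; rfl
    rw [this, ← hb0, hbb]
    fin_cases i <;> simp
  · intro i
    have : ∑ j, (Matrix.of fun i j => star (b i j)) i j * L0 j = inner ℂ (b i) M0 := by
      rw [inner_eq]; rfl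
    rw [this]
    conv_lhs => rw [hb1]
    rw [inner_smul_right, hbb]
    fin_cases i <;> simp
  · intro i
    have : ∑ j, (Matrix.of fun i j => star (b i j)) i j * L1 j = inner ℂ (b i) M1 := by
      rw [inner_eq]; rfl
    rw [this]
    conv_lhs => rw [hb2]
    rw [inner_smul_right, hbb]
    fin_cases i <;> simp

theorem exists_frame (l : Fin 4 → Fin 2 → ℂ) : ∃ v0 v1 : ℂ, v0 * star v0 + v1 * star v1 = 1 ∧
    ∑ j, (l j 0 * v0 + l j 1 * v1) * star (- l j 0 * star v1 + l j 1 * star v0) = 0 ∧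
    ∑ j, Complex.normSq (l j 0 * v0 + l j 1 * v1) ≤
      ∑ j, Complex.normSq (- l j 0 * star v1 + l j 1 * star v0) := by
  have main : ∃ v0 v1 : ℂ, v0 * star v0 + v1 * star v1 = 1 ∧
    ∑ j, (l j 0 * v0 + l j 1 * v1) * star (- l j 0 * star v1 + l j 1 * star v0) = 0 := by
    obtain ⟨x, y, hxy, h⟩ := q2_root ![∑ j, l j 0 * star (l j 1),
      ∑ j, (l j 1 * star (l j 1) - l j 0 * star (l j 0)), - ∑ j, l j 1 * star (l j 0)]
    set ρ : ℝ := Real.sqrt (Complex.normSq x + Complex.normSq y) with hρ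
    have hpos : 0 < Complex.normSq x + Complex.normSq y := by
      rcases hxy with h | h
      · have := Complex.normSq_pos.mpr h
        linarith [Complex.normSq_nonneg y]
      · have := Complex.normSq_pos.mpr h
        linarith [Complex.normSq_nonneg x]
    have hρ2 : ρ ^ 2 = Complex.normSq x + Complex.normSq y := Real.sq_sqrt hpos.le
    have hρ0 : ρ ≠ 0 := (Real.sqrt_pos.mpr hpos).ne'
    have hρc : (ρ : ℂ) ≠ 0 := by exact_mod_cast hρ0
    have hρ2c : (ρ : ℂ) ^ 2 = x * star x + y * star y := by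
      have e0 : star x = (starRingEnd ℂ) x := rfl
      have e1 : star y = (starRingEnd ℂ) y := rfl
      rw [e0, e1, Complex.mul_conj, Complex.mul_conj, ← Complex.ofReal_pow, hρ2]
      push_cast
      ring
    refine ⟨x / ρ, y / ρ, ?_, ?_⟩
    · simp only [star_div₀, Complex.star_def, Complex.conj_ofReal] at hρ2c ⊢
      field_simp
      rw [hρ2c]
    · simp only [q2, Matrix.cons_val_zero, Matrix.cons_val_one, Matrix.cons_val,
        Fin.sum_univ_four] at h ⊢
      simp only [star_add, star_mul', star_neg, star_star, star_div₀, Complex.star_def,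
        Complex.conj_ofReal, Complex.conj_conj] at h ⊢
      field_simp
      linear_combination h
  obtain ⟨v0, v1, hv, ho⟩ := main
  rcases le_total (∑ j, Complex.normSq (l j 0 * v0 + l j 1 * v1))
    (∑ j, Complex.normSq (- l j 0 * star v1 + l j 1 * star v0)) with h | h
  · exact ⟨v0, v1, hv, ho, h⟩
  · refine ⟨- star v1, star v0, ?_, ?_, ?_⟩
    · simp only [star_neg, star_star]
      linear_combination hv
    · have := congrArg star ho
      simp only [Fin.sum_univ_four, star_add, star_mul', star_neg, star_star, star_zero] at this ⊢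
      linear_combination - this
    · have e1 : ∀ j, l j 0 * -star v1 + l j 1 * star v0 = - l j 0 * star v1 + l j 1 * star v0 :=
        fun j => by ring
      have e2 : ∀ j, - l j 0 * star (star v0) + l j 1 * star (-star v1) =
          - (l j 0 * v0 + l j 1 * v1) := fun j => by simp; ring
      simp only [e1, e2, Complex.normSq_neg]
      exact h

end Pool.Agent.W2helper54.SOS
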