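import Pool.Agent.W2helper54.SOS.CaseA
import Pool.Agent.W2helper54.SOS.CaseB
import Pool.Agent.W2helper54.SOS.Frame

/-!
# Piece K6 of MP_ce7760_an : `CritMain → Crit`
-/

open MvPolynomial

namespace Pool.Agent.W2helper54.SOS

open Pool.Agent.W2helper74.SOS

/-- substitution in linear forms -/
def sub1 (v0 v1 : ℂ) (a : Fin 2 → ℂ) : Fin 2 → ℂ :=
  ![a 0 * v0 + a 1 * v1, - a 0 * star v1 + a 1 * star v0]

/-- substitution in quadratic forms -/
def sub2 (v0 v1 : ℂ) (a : Fin 3 → ℂ) : Fin 3 → ℂ :=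
  ![a 0 * v0 ^ 2 + a 1 * v0 * v1 + a 2 * v1 ^ 2,
    - 2 * a 0 * v0 * star v1 + a 1 * (v0 * star v0 - v1 * star v1) + 2 * a 2 * v1 * star v0,
    a 0 * star v1 ^ 2 - a 1 * star v1 * star v0 + a 2 * star v0 ^ 2]

/-- substitution in cubic forms -/
def sub3 (v0 v1 : ℂ) (a : Fin 4 → ℂ) : Fin 4 → ℂ :=
  ![a 0 * v0 ^ 3 + a 1 * v0 ^ 2 * v1 + a 2 * v0 * v1 ^ 2 + a 3 * v1 ^ 3,
    - 3 * a 0 * v0 ^ 2 * star v1 + a 1 * (v0 ^ 2 * star v0 - 2 * v0 * v1 * star v1) +
      a 2 * (2 * v0 * v1 * star v0 - v1 ^ 2 * star v1) + 3 * a 3 * v1 ^ 2 * star v0,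
    3 * a 0 * v0 * star v1 ^ 2 + a 1 * (v1 * star v1 ^ 2 - 2 * v0 * star v0 * star v1) +
      a 2 * (v0 * star v0 ^ 2 - 2 * v1 * star v0 * star v1) + 3 * a 3 * v1 * star v0 ^ 2,
    - a 0 * star v1 ^ 3 + a 1 * star v1 ^ 2 * star v0 - a 2 * star v1 * star v0 ^ 2 +
      a 3 * star v0 ^ 3]

theorem q1_sub (v0 v1 : ℂ) (a : Fin 2 → ℂ) (x y : ℂ) :
    q1 (sub1 v0 v1 a) x y = q1 a (v0 * x - star v1 * y) (v1 * x + star v0 * y) := by
  simp only [q1, sub1, Matrix.cons_val_zero, Matrix.cons_val_one]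
  ring

theorem q2_sub (v0 v1 : ℂ) (a : Fin 3 → ℂ) (x y : ℂ) :
    q2 (sub2 v0 v1 a) x y = q2 a (v0 * x - star v1 * y) (v1 * x + star v0 * y) := by
  simp only [q2, sub2, Matrix.cons_val_zero, Matrix.cons_val_one, Matrix.cons_val]
  ring

theorem q3_sub (v0 v1 : ℂ) (a : Fin 4 → ℂ) (x y : ℂ) :
    q3 (sub3 v0 v1 a) x y = q3 a (v0 * x - star v1 * y) (v1 * x + star v0 * y) := by
  simp only [q3, sub3, Matrix.cons_val_zero, Matrix.cons_val_one, Matrix.cons_val]
  ring

theorem q1_cj (a : Fin 2 → ℂ) (x y : ℂ) : q1 (cj a) x y = star (q1 a (star x) (star y)) := by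
  simp [q1, cj]

theorem q1_cj_sub (v0 v1 : ℂ) (a : Fin 2 → ℂ) (x y : ℂ) :
    q1 (cj (sub1 v0 v1 a)) x y = q1 (cj a) (star v0 * x - v1 * y) (star v1 * x + v0 * y) := by
  rw [q1_cj, q1_sub, q1_cj]
  simp

theorem q2_cj_sub (v0 v1 : ℂ) (a : Fin 3 → ℂ) (x y : ℂ) :
    q2 (cj (sub2 v0 v1 a)) x y = q2 (cj a) (star v0 * x - v1 * y) (star v1 * x + v0 * y) := by
  rw [q2_cj, q2_sub, q2_cj]
  simp

theorem q3_cj_sub (v0 v1 : ℂ) (a : Fin 4 → ℂ) (x y : ℂ) :
    q3 (cj (sub3 v0 v1 a)) x y = q3 (cj a) (star v0 * x - v1 * y) (star v1 * x + v0 * y) := by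
  rw [q3_cj, q3_sub, q3_cj]
  simp

theorem sys_subst {c : Fin 4 → ℂ} {l : Fin 4 → Fin 2 → ℂ} {r : Fin 4 → Fin 3 → ℂ}
    {t : Fin 4 → Fin 4 → ℂ} (h : Sys c l r t) {v0 v1 : ℂ}
    (hv : v0 * star v0 + v1 * star v1 = 1) :
    Sys c (fun j => sub1 v0 v1 (l j)) (fun j => sub2 v0 v1 (r j)) (fun j => sub3 v0 v1 (t j)) := by
  have hs : ∀ x y X Y : ℂ, (v0 * x - star v1 * y) * (star v0 * X - v1 * Y) +
      (v1 * x + star v0 * y) * (star v1 * X + v0 * Y) = x * X + y * Y := by
    intro x y X Y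
    linear_combination (x * X + y * Y) * hv
  constructor
  · intro X Y
    simp only [q3_cj_sub]
    exact h.E3 _ _
  · intro x y X Y
    simp only [q3_cj_sub, q1_sub, q2_cj_sub]
    rw [h.E2, hs]
  · intro x y X Y
    simp only [q3_cj_sub, q1_sub, q2_sub, q2_cj_sub, q1_cj_sub]
    rw [h.E1, hs]
  · intro x y X Y
    simp only [q3_cj_sub, q3_sub, q1_sub, q2_sub, q2_cj_sub, q1_cj_sub]
    rw [h.E0, hs]

theorem unit_sum {U : Matrix (Fin 4) (Fin 4) ℂ} (hU : U.conjTranspose * U = 1)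
    (x y : Fin 4 → ℂ) :
    ∑ i, (∑ j, U i j * x j) * (∑ k, star (U i k) * y k) = ∑ j, x j * y j := by
  have h : ∀ k j, ∑ i, star (U i k) * U i j = if k = j then (1 : ℂ) else 0 := by
    intro k j
    have := congrFun (congrFun hU k) j
    rw [Matrix.mul_apply, Matrix.one_apply] at this
    simpa [Matrix.conjTranspose_apply] using this
  calc ∑ i, (∑ j, U i j * x j) * (∑ k, star (U i k) * y k)
      = ∑ i, ∑ j, ∑ k, x j * y k * (star (U i k) * U i j) := by
        refine Finset.sum_congr rfl fun i _ => ?_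
        rw [Finset.sum_mul_sum]
        exact Finset.sum_congr rfl fun j _ => Finset.sum_congr rfl fun k _ => by ring
    _ = ∑ j, ∑ k, x j * y k * ∑ i, star (U i k) * U i j := by
        rw [Finset.sum_comm]
        refine Finset.sum_congr rfl fun j _ => ?_
        rw [Finset.sum_comm]
        exact Finset.sum_congr rfl fun k _ => by rw [Finset.mul_sum]
    _ = ∑ j, x j * y j := by
        refine Finset.sum_congr rfl fun j _ => ?_
        simp only [h, mul_ite, mul_one, mul_zero, Finset.sum_ite_eq', Finset.mem_univ, if_true]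

theorem unit_sum' {U : Matrix (Fin 4) (Fin 4) ℂ} (hU : U.conjTranspose * U = 1)
    {x y x' y' : Fin 4 → ℂ} (hx : ∀ i, x' i = ∑ j, U i j * x j)
    (hy : ∀ i, y' i = ∑ j, star (U i j) * y j) :
    ∑ i, x' i * y' i = ∑ j, x j * y j := by
  simp only [hx, hy]
  exact unit_sum hU x y

theorem sys_unitary {c : Fin 4 → ℂ} {l : Fin 4 → Fin 2 → ℂ} {r : Fin 4 → Fin 3 → ℂ}
    {t : Fin 4 → Fin 4 → ℂ} (h : Sys c l r t) {U : Matrix (Fin 4) (Fin 4) ℂ}
    (hU : U.conjTranspose * U = 1) :
    Sys (fun i => ∑ j, U i j * c j) (fun i m => ∑ j, U i j * l j m)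
      (fun i m => ∑ j, U i j * r j m) (fun i m => ∑ j, U i j * t j m) := by
  have a1 : ∀ i x y, q1 (fun m => ∑ j, U i j * l j m) x y = ∑ j, U i j * q1 (l j) x y := by
    intro i x y; simp only [q1, Fin.sum_univ_four]; ring
  have a2 : ∀ i x y, q2 (fun m => ∑ j, U i j * r j m) x y = ∑ j, U i j * q2 (r j) x y := by
    intro i x y; simp only [q2, Fin.sum_univ_four]; ring
  have a3 : ∀ i x y, q3 (fun m => ∑ j, U i j * t j m) x y = ∑ j, U i j * q3 (t j) x y := by
    intro i x y; simp only [q3, Fin.sum_univ_four]; ring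
  have b0 : ∀ i, star (∑ j, U i j * c j) = ∑ j, star (U i j) * star (c j) := by
    intro i; simp
  have b1 : ∀ i x y, q1 (cj (fun m => ∑ j, U i j * l j m)) x y =
      ∑ j, star (U i j) * q1 (cj (l j)) x y := by
    intro i x y
    simp only [q1, cj, Fin.sum_univ_four, star_add, star_mul']; ring
  have b2 : ∀ i x y, q2 (cj (fun m => ∑ j, U i j * r j m)) x y =
      ∑ j, star (U i j) * q2 (cj (r j)) x y := by
    intro i x y
    simp only [q2, cj, Fin.sum_univ_four, star_add, star_mul']; ring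
  have b3 : ∀ i x y, q3 (cj (fun m => ∑ j, U i j * t j m)) x y =
      ∑ j, star (U i j) * q3 (cj (t j)) x y := by
    intro i x y
    simp only [q3, cj, Fin.sum_univ_four, star_add, star_mul']; ring
  constructor
  · intro X Y
    simp only [b3]
    rw [unit_sum hU]
    exact h.E3 _ _
  · intro x y X Y
    simp only [b3, b2, a1]
    rw [unit_sum hU, unit_sum hU]
    exact h.E2 _ _ _ _
  · intro x y X Y
    simp only [b3, b2, a1, a2, b1]
    rw [unit_sum hU, unit_sum hU, unit_sum hU]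
    exact h.E1 _ _ _ _
  · intro x y X Y
    simp only [b3, b2, a1, a2, b1, a3, b0]
    rw [unit_sum hU, unit_sum hU, unit_sum hU, unit_sum hU]
    exact h.E0 _ _ _ _

theorem sys_scale {c : Fin 4 → ℂ} {l : Fin 4 → Fin 2 → ℂ} {r : Fin 4 → Fin 3 → ℂ}
    {t : Fin 4 → Fin 4 → ℂ} (h : Sys c l r t) (ρ : ℝ) :
    Sys (fun j => ρ * c j) (fun j m => ρ * l j m) (fun j m => ρ * r j m)
      (fun j m => ρ * t j m) := by
  have a1 : ∀ j x y, q1 (fun m => ρ * l j m) x y = ρ * q1 (l j) x y := by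
    intro i x y; simp only [q1]; ring
  have a2 : ∀ j x y, q2 (fun m => ρ * r j m) x y = ρ * q2 (r j) x y := by
    intro i x y; simp only [q2]; ring
  have a3 : ∀ j x y, q3 (fun m => ρ * t j m) x y = ρ * q3 (t j) x y := by
    intro i x y; simp only [q3]; ring
  have b0 : ∀ j, star (ρ * c j) = ρ * star (c j) := by
    intro j; simp
  have b1 : ∀ j x y, q1 (cj (fun m => ρ * l j m)) x y = ρ * q1 (cj (l j)) x y := by
    intro i x y; simp only [q1, cj, star_mul', Complex.star_def, Complex.conj_ofReal]; ring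
  have b2 : ∀ j x y, q2 (cj (fun m => ρ * r j m)) x y = ρ * q2 (cj (r j)) x y := by
    intro i x y; simp only [q2, cj, star_mul', Complex.star_def, Complex.conj_ofReal]; ring
  have b3 : ∀ j x y, q3 (cj (fun m => ρ * t j m)) x y = ρ * q3 (cj (t j)) x y := by
    intro i x y; simp only [q3, cj, star_mul', Complex.star_def, Complex.conj_ofReal]; ring
  constructor
  · intro X Y
    have := h.E3 X Y
    simp only [b3, Fin.sum_univ_four] at this ⊢
    linear_combination (ρ : ℂ) ^ 2 * this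
  · intro x y X Y
    have := h.E2 x y X Y
    simp only [b3, b2, a1, Fin.sum_univ_four] at this ⊢
    linear_combination (ρ : ℂ) ^ 2 * this
  · intro x y X Y
    have := h.E1 x y X Y
    simp only [b3, b2, a1, a2, b1, Fin.sum_univ_four] at this ⊢
    linear_combination (ρ : ℂ) ^ 2 * this
  · intro x y X Y
    have := h.E0 x y X Y
    simp only [b3, b2, a1, a2, b1, a3, b0, Fin.sum_univ_four] at this ⊢
    linear_combination (ρ : ℂ) ^ 2 * this

/-- the theorem for a system in normal form -/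
theorem ns_false (hC : CritMain) {g1 g2 : ℝ} (hg1 : 0 ≤ g1) (h12 : g1 ≤ g2)
    {u r1 r2 κ : Fin 3 → ℂ} {t1 t2 t3 : Fin 4 → ℂ} (h : NS g1 g2 u r1 r2 κ t1 t2 t3) : False := by
  by_cases hu : u = 0
  · subst hu
    rcases hg1.eq_or_lt with h1 | h1
    · subst h1
      rcases h12.eq_or_lt with h2 | h2
      · subst h2
        exact caseB1 h
      · exact caseB3 h2 h
    · exact caseB2 h1.ne' (lt_of_lt_of_le h1 h12).ne' h
  · exact caseA hC hg1 h12 hu h

theorem crit_norm (hC : CritMain) {c : Fin 4 → ℂ} {l : Fin 4 → Fin 2 → ℂ} {r : Fin 4 → Fin 3 → ℂ}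
    {t : Fin 4 → Fin 4 → ℂ} (h : Sys c l r t) {g1 g2 : ℝ} (hg1 : 0 ≤ g1) (h12 : g1 ≤ g2)
    (hc : c = ![1, 0, 0, 0]) (hl0 : ∀ i, l i 0 = (![0, (g1 : ℂ), 0, 0] : Fin 4 → ℂ) i)
    (hl1 : ∀ i, l i 1 = (![0, 0, (g2 : ℂ), 0] : Fin 4 → ℂ) i)
    (hnz : ∀ x y : ℂ, (x ≠ 0 ∨ y ≠ 0) → ∃ j, q3 (t j) x y ≠ 0) : False := by
  subst hc
  have ht0 : ∀ X Y, q3 (cj (t 0)) X Y = 0 := by
    intro X Y
    have := h.E3 X Y
    simpa [Fin.sum_univ_four] using this
  have ht0' : ∀ x y, q3 (t 0) x y = 0 := by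
    intro x y
    have := ht0 (star x) (star y)
    rw [q3_cj] at this
    simpa using this
  have l00 : l 0 0 = 0 := by simpa using hl0 0
  have l10 : l 1 0 = g1 := by simpa using hl0 1
  have l20 : l 2 0 = 0 := by simpa using hl0 2
  have l30 : l 3 0 = 0 := by simpa using hl0 3
  have l01 : l 0 1 = 0 := by simpa using hl1 0
  have l11 : l 1 1 = 0 := by simpa using hl1 1
  have l21 : l 2 1 = g2 := by simpa using hl1 2
  have l31 : l 3 1 = 0 := by simpa using hl1 3
  have hE2 : ∀ x y X Y, g1 * x * q3 (cj (t 1)) X Y + g2 * y * q3 (cj (t 2)) X Y =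
      (x * X + y * Y) * q2 (cj (r 0)) X Y := by
    intro x y X Y
    have := h.E2 x y X Y
    simp only [Fin.sum_univ_four, q1, l00, l10, l20, l30, l01, l11, l21, l31,
      Matrix.cons_val_zero, Matrix.cons_val_one, Matrix.cons_val] at this
    linear_combination this
  refine ns_false hC hg1 h12 (u := r 0) (r1 := r 1) (r2 := r 2) (κ := r 3) (t1 := t 1)
    (t2 := t 2) (t3 := t 3) ⟨?_, ?_, ?_, ?_, ?_⟩
  · intro x y
    have := congrArg star (hE2 1 0 (star x) (star y))
    simp only [q3_cj, q2_cj, star_star] at this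
    simp only [star_mul', star_add, star_star, star_one, star_zero, Complex.star_def,
      Complex.conj_ofReal, Complex.conj_conj] at this
    linear_combination this
  · intro x y
    have := congrArg star (hE2 0 1 (star x) (star y))
    simp only [q3_cj, q2_cj, star_star] at this
    simp only [star_mul', star_add, star_star, star_one, star_zero, Complex.star_def,
      Complex.conj_ofReal, Complex.conj_conj] at this
    linear_combination this
  · intro x y X Y
    have := h.E1 x y X Y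
    simp only [Fin.sum_univ_four, q1, cj, l00, l10, l20, l30, l01, l11, l21, l31,
      Matrix.cons_val_zero, Matrix.cons_val_one, Matrix.cons_val, star_zero] at this
    rw [ht0 X Y] at this
    linear_combination this
  · intro x y X Y
    have := h.E0 x y X Y
    rw [Fin.sum_univ_four, ht0' x y] at this
    simp only [Fin.sum_univ_four, q1, cj, l00, l10, l20, l30, l01, l11, l21, l31,
      Matrix.cons_val_zero, Matrix.cons_val_one, Matrix.cons_val, map_zero, map_one,
      Complex.star_def, Complex.conj_ofReal] at this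
    linear_combination this
  · intro x y hxy
    obtain ⟨j, hj⟩ := hnz x y hxy
    fin_cases j
    · exact absurd (ht0' x y) hj
    · exact Or.inl hj
    · exact Or.inr (Or.inl hj)
    · exact Or.inr (Or.inr hj)

theorem crit (hC : CritMain) : Crit := by
  intro c l r t h hc hlc hnz
  set N : ℝ := ∑ j, Complex.normSq (c j) with hN
  have hNpos : 0 < N := by
    obtain ⟨j, hj⟩ := Function.ne_iff.mp hc
    exact Finset.sum_pos' (fun i _ => Complex.normSq_nonneg _)
      ⟨j, Finset.mem_univ _, Complex.normSq_pos.mpr hj⟩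
  set ρ : ℝ := (Real.sqrt N)⁻¹ with hρ
  have hρ0 : (ρ : ℂ) ≠ 0 := by
    have : ρ ≠ 0 := inv_ne_zero (Real.sqrt_pos.mpr hNpos).ne'
    exact_mod_cast this
  have hρ2 : ρ ^ 2 * N = 1 := by
    rw [hρ, inv_pow, Real.sq_sqrt hNpos.le, inv_mul_cancel₀ hNpos.ne']
  have h1 := sys_scale h ρ
  set c' : Fin 4 → ℂ := fun j => ρ * c j with hc'
  set l' : Fin 4 → Fin 2 → ℂ := fun j m => ρ * l j m with hl'
  have hcc : ∑ j, c' j * star (c' j) = 1 := by
    have e : ∀ j, c' j * star (c' j) = ((ρ ^ 2 * Complex.normSq (c j) : ℝ) : ℂ) := by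
      intro j
      simp only [hc', star_mul', Complex.star_def, Complex.conj_ofReal]
      push_cast
      rw [← Complex.mul_conj]
      ring
    simp only [e]
    rw [← Complex.ofReal_sum, ← Finset.mul_sum, ← hN, hρ2, Complex.ofReal_one]
  have hlc' : ∀ i, ∑ j, l' j i * star (c' j) = 0 := by
    intro i
    have e : ∀ j, l' j i * star (c' j) = ρ ^ 2 * (l j i * star (c j)) := by
      intro j
      simp only [hc', hl', star_mul', Complex.star_def, Complex.conj_ofReal]
      ring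
    simp only [e]
    rw [← Finset.mul_sum, hlc, mul_zero]
  obtain ⟨v0, v1, hv, ho, hle⟩ := exists_frame l'
  have h2 := sys_subst h1 hv
  obtain ⟨U, g1, g2, hU, hg1, hg2, hn1, hn2, hUc, hU0, hU1⟩ := exists_unitary c'
    (fun j => l' j 0 * v0 + l' j 1 * v1) (fun j => - l' j 0 * star v1 + l' j 1 * star v0)
    hcc (by
      have e0 := hlc' 0
      have e1 := hlc' 1
      simp only [Fin.sum_univ_four] at e0 e1 ⊢
      linear_combination v0 * e0 + v1 * e1) (by
      have e0 := hlc' 0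
      have e1 := hlc' 1
      simp only [Fin.sum_univ_four] at e0 e1 ⊢
      linear_combination - star v1 * e0 + star v0 * e1) ho
  have h3 := sys_unitary h2 hU
  have h12 : g1 ≤ g2 := by
    apply le_of_sq_le_sq _ hg2
    rw [hn1, hn2]
    exact hle
  refine crit_norm hC h3 hg1 h12 (funext hUc) (fun i => ?_) (fun i => ?_) ?_
  · exact hU0 i
  · exact hU1 i
  · intro x y hxy
    obtain ⟨j, hj⟩ := hnz (v0 * x - star v1 * y) (v1 * x + star v0 * y) (by
      by_contra hcon
      push Not at hcon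
      obtain ⟨a1, a2⟩ := hcon
      have ex : x = 0 := by linear_combination star v0 * a1 + star v1 * a2 - x * hv
      have ey : y = 0 := by linear_combination - v1 * a1 + v0 * a2 - y * hv
      rcases hxy with hx | hy
      · exact hx ex
      · exact hy ey)
    by_contra hcon
    push Not at hcon
    apply hj
    have a3 : ∀ i, ∑ j, U i j * q3 (t j) (v0 * x - star v1 * y) (v1 * x + star v0 * y) = 0 := by
      intro i
      have h4 := hcon i
      have e : q3 (fun m => ∑ j, U i j * sub3 v0 v1 (fun m => ↑ρ * t j m) m) x y =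
          ρ * ∑ j, U i j * q3 (t j) (v0 * x - star v1 * y) (v1 * x + star v0 * y) := by
        have e1 : q3 (fun m => ∑ j, U i j * sub3 v0 v1 (fun m => ↑ρ * t j m) m) x y =
            ∑ j, U i j * q3 (sub3 v0 v1 (fun m => ↑ρ * t j m)) x y := by
          simp only [q3, Fin.sum_univ_four]; ring
        rw [e1, Finset.mul_sum]
        refine Finset.sum_congr rfl fun j _ => ?_
        rw [q3_sub]
        simp only [q3]
        ring
      have h5 : q3 (fun m => ∑ j, U i j * sub3 v0 v1 (fun m => ↑ρ * t j m) m) x y = 0 := h4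
      rw [e] at h5
      exact (mul_eq_zero.mp h5).resolve_left hρ0
    have h6 : U.mulVec (fun j => q3 (t j) (v0 * x - star v1 * y) (v1 * x + star v0 * y)) = 0 := by
      ext i
      exact a3 i
    have h7 := congrArg U.conjTranspose.mulVec h6
    rw [Matrix.mulVec_mulVec, hU, Matrix.one_mulVec, Matrix.mulVec_zero] at h7
    exact congrFun h7 j

end Pool.Agent.W2helper54.SOS
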