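import Pool.Agent.W2helper54.SOS.Base3a

/-!
# SOS, last case, piece K7, `CaseThree`: vector part
-/

set_option autoImplicit false
open scoped ComplexConjugate InnerProductSpace

namespace Pool.Agent.W2helper54.SOS.Base3
open Pool.Agent.W2helper66.SOS.Base

theorem inner_self_ofReal (v : H4) : ⟪v, v⟫_ℂ = ((‖v‖ ^ 2 : ℝ) : ℂ) := by
  rw [inner_self_eq_norm_sq_to_K]; norm_cast

theorem Tf_continuous (t : Fin 4 → H4) : Continuous (fun z : ℂ × ℂ => Tf t z.1 z.2) := by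
  unfold Tf; fun_prop

theorem Rf_continuous (r : Fin 3 → H4) : Continuous (fun z : ℂ × ℂ => Rf r z.1 z.2) := by
  unfold Rf; fun_prop

/-- diagonal case -/
theorem diag (W : Submodule ℂ H4) (hf : Module.finrank ℂ W = 3) (T : ℂ → ℂ → H4)
    (hTc : Continuous (fun z : ℂ × ℂ => T z.1 z.2))
    (mem : ∀ x y, T x y ∈ W) (sp : ∀ u ∈ W, (∀ x y, ⟪T x y, u⟫_ℂ = 0) → u = 0)
    (G lam : ℂ → ℂ → ℂ) (hGc : Continuous (fun z : ℂ × ℂ => G z.1 z.2)) (hG : ∃ x y, G x y ≠ 0)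
    (a b : ℂ) (hlam : ∀ x y, lam x y = a * x + b * y) (hab : a ≠ 0 ∨ b ≠ 0)
    (δ : ℝ) (hδ : 0 < δ) (n1 n2 : H4) (hn1 : n1 ∈ W) (hn2 : n2 ∈ W)
    (k1 : ∀ x y, ⟪n1, T x y⟫_ℂ = x * G x y) (k2 : ∀ x y, ⟪n2, T x y⟫_ℂ = y * G x y)
    (e : ∀ x y x' y', ⟪T x' y', T x y⟫_ℂ = ss x y x' y' * (conj (G x' y') * G x y * ((δ⁻¹ : ℝ) : ℂ)
      + conj (lam x' y') * lam x y * ⟪x' • n1 + y' • n2, x • n1 + y • n2⟫_ℂ)
      - ss x y x' y' ^ 2 * ((δ : ℂ) * (conj (lam x' y') * lam x y)))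
    (h12 : ⟪n1, n2⟫_ℂ = 0) : False := by
  have h21 : ⟪n2, n1⟫_ℂ = 0 := by rw [← inner_conj_symm, h12, map_zero]
  obtain ⟨xg, yg, hg⟩ := hG
  have n10 : n1 ≠ 0 := by
    intro h
    apply hg
    apply cont_zero G hGc 0 (-1) (Or.inr (by norm_num))
    intro x y
    have := k1 x y
    rw [h, inner_zero_left] at this
    linear_combination -this
  have n20 : n2 ≠ 0 := by
    intro h
    apply hg
    apply cont_zero G hGc 1 0 (Or.inl (by norm_num))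
    intro x y
    have := k2 x y
    rw [h, inner_zero_left] at this
    linear_combination -this
  obtain ⟨f, hfW, hf0, hfo⟩ := exists_orth (W := W) ![n1, n2] (by rw [hf]; norm_num)
  have h1f : ⟪n1, f⟫_ℂ = 0 := hfo 0
  have h2f : ⟪n2, f⟫_ℂ = 0 := hfo 1
  have hf1 : ⟪f, n1⟫_ℂ = 0 := by rw [← inner_conj_symm, h1f, map_zero]
  have hf2 : ⟪f, n2⟫_ℂ = 0 := by rw [← inner_conj_symm, h2f, map_zero]
  have ν1p : 0 < ‖n1‖ ^ 2 := by have := norm_pos_iff.2 n10; positivity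
  have ν2p : 0 < ‖n2‖ ^ 2 := by have := norm_pos_iff.2 n20; positivity
  have φp : 0 < ‖f‖ ^ 2 := by have := norm_pos_iff.2 hf0; positivity
  refine final G (fun x y => ⟪f, T x y⟫_ℂ) lam (by fun_prop) a b hlam hab δ (‖n1‖ ^ 2) (‖n2‖ ^ 2)
    (‖f‖ ^ 2) hδ ν1p ν2p φp ?_ ?_
  · by_contra hno
    push Not at hno
    apply hf0
    apply sp f hfW
    intro x y
    rw [← inner_conj_symm, hno, map_zero]
  · intro x y x' y'
    have hexp : ∀ x y, T x y = (x * G x y * ((‖n1‖ ^ 2 : ℝ) : ℂ)⁻¹) • n1 +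
        (y * G x y * ((‖n2‖ ^ 2 : ℝ) : ℂ)⁻¹) • n2 + (⟪f, T x y⟫_ℂ * ((‖f‖ ^ 2 : ℝ) : ℂ)⁻¹) • f := by
      intro x y
      have := expand3 hn1 hn2 hfW n10 n20 hf0 h12 h1f h2f hf (mem x y)
      rw [k1, k2, inner_self_ofReal n1, inner_self_ofReal n2, inner_self_ofReal f] at this
      simpa only [div_eq_mul_inv] using this
    have c1 : ((‖n1‖ ^ 2 : ℝ) : ℂ) ≠ 0 := Complex.ofReal_ne_zero.2 ν1p.ne'
    have c2 : ((‖n2‖ ^ 2 : ℝ) : ℂ) ≠ 0 := Complex.ofReal_ne_zero.2 ν2p.ne'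
    have c3 : ((‖f‖ ^ 2 : ℝ) : ℂ) ≠ 0 := Complex.ofReal_ne_zero.2 φp.ne'
    have c4 : ((δ : ℝ) : ℂ) ≠ 0 := Complex.ofReal_ne_zero.2 hδ.ne'
    have e1 : ⟪T x' y', T x y⟫_ℂ = (x * conj x') * (G x y * conj (G x' y')) * ((‖n1‖ ^ 2 : ℝ) : ℂ)⁻¹
        + (y * conj y') * (G x y * conj (G x' y')) * ((‖n2‖ ^ 2 : ℝ) : ℂ)⁻¹
        + ⟪f, T x y⟫_ℂ * conj ⟪f, T x' y'⟫_ℂ * ((‖f‖ ^ 2 : ℝ) : ℂ)⁻¹ := by
      conv_lhs => rw [hexp x y, hexp x' y']
      simp only [inner_add_left, inner_add_right, inner_smul_left, inner_smul_right, h12, h21, h1f, h2f,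
        hf1, hf2, inner_self_ofReal, map_mul, map_inv₀, Complex.conj_ofReal, mul_zero, add_zero, zero_add]
      generalize ⟪f, T x y⟫_ℂ = A
      generalize ⟪f, T x' y'⟫_ℂ = B
      generalize ((‖n1‖ ^ 2 : ℝ) : ℂ) = N1 at *
      generalize ((‖n2‖ ^ 2 : ℝ) : ℂ) = N2 at *
      generalize ((‖f‖ ^ 2 : ℝ) : ℂ) = N3 at *
      field_simp
    have e2 : ⟪x' • n1 + y' • n2, x • n1 + y • n2⟫_ℂ = (x * conj x') * ((‖n1‖ ^ 2 : ℝ) : ℂ)
        + (y * conj y') * ((‖n2‖ ^ 2 : ℝ) : ℂ) := by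
      simp only [inner_add_left, inner_add_right, inner_smul_left, inner_smul_right, h12, h21,
        inner_self_ofReal, mul_zero, add_zero, zero_add]
      ring
    have e3 := e x y x' y'
    rw [e1, e2] at e3
    simp only [Complex.ofReal_sub, Complex.ofReal_inv, Complex.ofReal_mul δ] at e3 ⊢
    generalize ⟪f, T x y⟫_ℂ = A at *
    generalize ⟪f, T x' y'⟫_ℂ = B at *
    generalize ((‖n1‖ ^ 2 : ℝ) : ℂ) = N1 at *
    generalize ((‖n2‖ ^ 2 : ℝ) : ℂ) = N2 at *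
    generalize ((‖f‖ ^ 2 : ℝ) : ℂ) = N3 at *
    generalize ((δ : ℝ) : ℂ) = D at *
    have e4 : (N1 - D) * (D * N1)⁻¹ = D⁻¹ - N1⁻¹ := by field_simp
    have e5 : (N2 - D) * (D * N2)⁻¹ = D⁻¹ - N2⁻¹ := by field_simp
    unfold ss at e3 ⊢
    linear_combination e3 - (x * conj x') * (G x y * conj (G x' y')) * e4
      - (y * conj y') * (G x y * conj (G x' y')) * e5

/-- general case, by a rotation -/
theorem gen (W : Submodule ℂ H4) (hf : Module.finrank ℂ W = 3) (T : ℂ → ℂ → H4)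
    (hTc : Continuous (fun z : ℂ × ℂ => T z.1 z.2))
    (mem : ∀ x y, T x y ∈ W) (sp : ∀ u ∈ W, (∀ x y, ⟪T x y, u⟫_ℂ = 0) → u = 0)
    (G lam : ℂ → ℂ → ℂ) (hGc : Continuous (fun z : ℂ × ℂ => G z.1 z.2)) (hG : ∃ x y, G x y ≠ 0)
    (a b : ℂ) (hlam : ∀ x y, lam x y = a * x + b * y) (hab : a ≠ 0 ∨ b ≠ 0)
    (δ : ℝ) (hδ : 0 < δ) (n1 n2 : H4) (hn1 : n1 ∈ W) (hn2 : n2 ∈ W)
    (k1 : ∀ x y, ⟪n1, T x y⟫_ℂ = x * G x y) (k2 : ∀ x y, ⟪n2, T x y⟫_ℂ = y * G x y)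
    (e : ∀ x y x' y', ⟪T x' y', T x y⟫_ℂ = ss x y x' y' * (conj (G x' y') * G x y * ((δ⁻¹ : ℝ) : ℂ)
      + conj (lam x' y') * lam x y * ⟪x' • n1 + y' • n2, x • n1 + y • n2⟫_ℂ)
      - ss x y x' y' ^ 2 * ((δ : ℂ) * (conj (lam x' y') * lam x y))) : False := by
  obtain ⟨P, Q, hPQ, hz⟩ := quad_zero ⟪n1, n2⟫_ℂ (⟪n2, n2⟫_ℂ - ⟪n1, n1⟫_ℂ) (-⟪n2, n1⟫_ℂ)
  obtain ⟨c, hc, hcn⟩ := unit_of_ne hPQ
  obtain ⟨p, hp⟩ : ∃ p, conj p = c * P := ⟨conj (c * P), Complex.conj_conj _⟩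
  obtain ⟨q, hq⟩ : ∃ q, conj q = c * Q := ⟨conj (c * Q), Complex.conj_conj _⟩
  have hpq : p * conj p + q * conj q = 1 := by
    rw [← hp, ← hq, Complex.conj_conj, Complex.conj_conj] at hcn
    linear_combination hcn
  refine diag W hf (fun x y => T (x * p - y * conj q) (x * q + y * conj p)) ?_ (fun x y => mem _ _)
    ?_ (fun x y => G (x * p - y * conj q) (x * q + y * conj p))
    (fun x y => lam (x * p - y * conj q) (x * q + y * conj p)) ?_ ?_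
    (a * p + b * q) (-a * conj q + b * conj p) ?_ ?_ δ hδ (p • n1 + q • n2)
    ((-conj q) • n1 + conj p • n2) ?_ ?_ ?_ ?_ ?_ ?_
  · exact hTc.comp (by fun_prop :
      Continuous fun z : ℂ × ℂ => (z.1 * p - z.2 * conj q, z.1 * q + z.2 * conj p))
  · intro u hu h1
    apply sp u hu
    intro x y
    obtain ⟨x', y', hx, hy⟩ := rot_surj hpq x y
    rw [hx, hy]; exact h1 _ _
  · exact hGc.comp (by fun_prop :
      Continuous fun z : ℂ × ℂ => (z.1 * p - z.2 * conj q, z.1 * q + z.2 * conj p))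
  · obtain ⟨x, y, hxy⟩ := hG
    obtain ⟨x', y', hx, hy⟩ := rot_surj hpq x y
    exact ⟨x', y', by rw [← hx, ← hy]; exact hxy⟩
  · intro x y
    rw [hlam]; ring
  · by_contra hno
    push Not at hno
    have ha : a = 0 := by
      linear_combination (-a) * hpq + conj p * hno.1 - q * hno.2
    have hb : b = 0 := by
      linear_combination (-b) * hpq + conj q * hno.1 + p * hno.2
    rcases hab with h | h
    · exact h ha
    · exact h hb
  · exact W.add_mem (W.smul_mem _ hn1) (W.smul_mem _ hn2)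
  · exact W.add_mem (W.smul_mem _ hn1) (W.smul_mem _ hn2)
  · intro x y
    rw [inner_add_left, inner_smul_left, inner_smul_left, k1, k2]
    linear_combination x * G (x * p - y * conj q) (x * q + y * conj p) * hpq
  · intro x y
    rw [inner_add_left, inner_smul_left, inner_smul_left, k1, k2]
    simp only [map_neg, Complex.conj_conj]
    linear_combination y * G (x * p - y * conj q) (x * q + y * conj p) * hpq
  · intro x y x' y'
    rw [e, ss_rot hpq]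
    have v1 : ∀ x y : ℂ, (x * p - y * conj q) • n1 + (x * q + y * conj p) • n2 =
        x • (p • n1 + q • n2) + y • ((-conj q) • n1 + conj p • n2) := by
      intro x y; module
    rw [v1, v1]
  · simp only [inner_add_left, inner_add_right, inner_smul_left, inner_smul_right]
    rw [hp, hq]
    linear_combination c ^ 2 * hz

theorem core (l : Fin 2 → H4) (r : Fin 3 → H4) (t : Fin 4 → H4) (W : Submodule ℂ H4)
    (h : HS l r t) (hW : HW W t) (hf : Module.finrank ℂ W = 3) (hl0 : l 0 = 0) (hl1 : l 1 ≠ 0) :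
    False := by
  have orthW : ∀ v : H4, (∀ x y, ⟪Tf t x y, v⟫_ℂ = 0) → v ∈ Wᗮ := by
    intro v hv
    obtain ⟨a, ha, b, hb, rfl⟩ := W.exists_add_mem_mem_orthogonal v
    have : a = 0 := by
      apply hW.sp a ha
      intro x y
      have h1 := hv x y
      rw [inner_add_right, (W.mem_orthogonal b).1 hb _ (hW.mem x y), add_zero] at h1
      exact h1
    rw [this, zero_add]; exact hb
  obtain ⟨g, hg⟩ : ∃ g, g = l 1 := ⟨_, rfl⟩
  have hg0 : g ≠ 0 := hg ▸ hl1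
  have gperp : g ∈ Wᗮ := by
    apply orthW
    intro x y
    have := h.e2 0 1 x y
    rw [Lf_01] at this
    rw [hg]; exact this
  have hf1 : Module.finrank ℂ (Wᗮ : Submodule ℂ H4) = 1 := by
    have h1 := W.finrank_add_finrank_orthogonal
    have h2 : Module.finrank ℂ H4 = 4 := by simp
    omega
  have δp : 0 < ‖g‖ ^ 2 := by have := norm_pos_iff.2 hg0; positivity
  have hδc : ((‖g‖ ^ 2 : ℝ) : ℂ) ≠ 0 := Complex.ofReal_ne_zero.2 δp.ne'
  have perp : ∀ v ∈ Wᗮ, v = (⟪g, v⟫_ℂ * ((‖g‖ ^ 2 : ℝ) : ℂ)⁻¹) • g := by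
    intro v hv
    have := expand1 gperp hg0 hf1 hv
    rwa [inner_self_ofReal g, div_eq_mul_inv] at this
  have back : ∀ v : H4, ⟪g, v⟫_ℂ = 0 → v ∈ W := by
    intro v hv
    obtain ⟨a, ha, b, hb, rfl⟩ := W.exists_add_mem_mem_orthogonal v
    have h1 : ⟪g, a⟫_ℂ = 0 := by
      rw [← inner_conj_symm, (W.mem_orthogonal g).1 gperp a ha, map_zero]
    rw [inner_add_right, h1, zero_add] at hv
    have := perp b hb
    rw [hv, zero_mul, zero_smul] at this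
    rw [this, add_zero]; exact ha
  have gW : ∀ u ∈ W, ⟪g, u⟫_ℂ = 0 := by
    intro u hu
    rw [← inner_conj_symm, (W.mem_orthogonal g).1 gperp u hu, map_zero]
  have Wg : ∀ u ∈ W, ⟪u, g⟫_ℂ = 0 := (W.mem_orthogonal g).1 gperp
  have hL : ∀ x y, Lf l x y = y • g := by
    intro x y
    unfold Lf
    rw [hl0, hg, smul_zero, zero_add]
  have hr0 : r 0 ∈ Wᗮ := by
    apply orthW
    intro x y
    have := h.e1 1 0 x y
    rw [Rf_10, Lf_10, hl0, inner_zero_right, mul_zero] at this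
    exact this
  set c1 : ℂ := ⟪g, r 1⟫_ℂ * ((‖g‖ ^ 2 : ℝ) : ℂ)⁻¹ with hc1
  set c2 : ℂ := ⟪g, r 2⟫_ℂ * ((‖g‖ ^ 2 : ℝ) : ℂ)⁻¹ with hc2
  have gn1 : ⟪g, r 1 - c1 • g⟫_ℂ = 0 := by
    rw [inner_sub_right, inner_smul_right, inner_self_ofReal, hc1, mul_assoc,
      inv_mul_cancel₀ hδc, mul_one, sub_self]
  have gn2 : ⟪g, r 2 - c2 • g⟫_ℂ = 0 := by
    rw [inner_sub_right, inner_smul_right, inner_self_ofReal, hc2, mul_assoc,
      inv_mul_cancel₀ hδc, mul_one, sub_self]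
  obtain ⟨n1, hn1⟩ : ∃ n1, n1 = r 1 - c1 • g := ⟨_, rfl⟩
  obtain ⟨n2, hn2⟩ : ∃ n2, n2 = r 2 - c2 • g := ⟨_, rfl⟩
  rw [← hn1] at gn1
  rw [← hn2] at gn2
  have n1W : n1 ∈ W := back _ gn1
  have n2W : n2 ∈ W := back _ gn2
  have hR : ∀ x y, Rf r x y = (⟪g, Rf r x y⟫_ℂ * ((‖g‖ ^ 2 : ℝ) : ℂ)⁻¹) • g + y • (x • n1 + y • n2) := by
    intro x y
    have h0 := perp _ hr0
    have h1 : r 1 = n1 + c1 • g := by rw [hn1]; abel
    have h2 : r 2 = n2 + c2 • g := by rw [hn2]; abel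
    have hG : ⟪g, Rf r x y⟫_ℂ = x ^ 2 * ⟪g, r 0⟫_ℂ + (x * y) * ⟪g, r 1⟫_ℂ + y ^ 2 * ⟪g, r 2⟫_ℂ := by
      unfold Rf
      rw [inner_add_right, inner_add_right, inner_smul_right, inner_smul_right, inner_smul_right]
    have hG2 : ⟪g, Rf r x y⟫_ℂ * ((‖g‖ ^ 2 : ℝ) : ℂ)⁻¹ =
        x ^ 2 * (⟪g, r 0⟫_ℂ * ((‖g‖ ^ 2 : ℝ) : ℂ)⁻¹) + (x * y) * c1 + y ^ 2 * c2 := by
      rw [hG, hc1, hc2]; ring
    rw [hG2]
    generalize ⟪g, r 0⟫_ℂ * ((‖g‖ ^ 2 : ℝ) : ℂ)⁻¹ = c0 at h0 ⊢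
    unfold Rf
    rw [h0, h1, h2]
    module
  have hTr1 : ∀ x y, ⟪n1, Tf t x y⟫_ℂ = x * ⟪g, Rf r x y⟫_ℂ := by
    intro x y
    have e1 := h.e1 1 1 x y
    have e2 := h.e1 1 0 x y
    have e3 := h.e1 0 1 x y
    rw [hL, Rf_11, inner_add_right, inner_add_right, one_smul] at e1
    rw [hL, Rf_10, zero_smul, inner_zero_right, mul_zero] at e2
    rw [hL, Rf_01, one_smul] at e3
    unfold ss at e1 e3
    have e4 : ⟪Tf t x y, r 1⟫_ℂ = conj x * ⟪Rf r x y, g⟫_ℂ := by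
      linear_combination e1 - e2 - e3
    rw [hn1, inner_sub_left, inner_smul_left, gW _ (hW.mem x y), mul_zero, sub_zero,
      ← inner_conj_symm, e4, map_mul, Complex.conj_conj, inner_conj_symm]
  have hTr2 : ∀ x y, ⟪n2, Tf t x y⟫_ℂ = y * ⟪g, Rf r x y⟫_ℂ := by
    intro x y
    have e3 := h.e1 0 1 x y
    rw [hL, Rf_01, one_smul] at e3
    unfold ss at e3
    have e4 : ⟪Tf t x y, r 2⟫_ℂ = conj y * ⟪Rf r x y, g⟫_ℂ := by
      linear_combination e3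
    rw [hn2, inner_sub_left, inner_smul_left, gW _ (hW.mem x y), mul_zero, sub_zero,
      ← inner_conj_symm, e4, map_mul, Complex.conj_conj, inner_conj_symm]
  have hE : ∀ x y x' y', ⟪Tf t x' y', Tf t x y⟫_ℂ = ss x y x' y' *
      (conj ⟪g, Rf r x' y'⟫_ℂ * ⟪g, Rf r x y⟫_ℂ * (((‖g‖ ^ 2)⁻¹ : ℝ) : ℂ)
      + conj y' * y * ⟪x' • n1 + y' • n2, x • n1 + y • n2⟫_ℂ)
      - ss x y x' y' ^ 2 * (((‖g‖ ^ 2 : ℝ) : ℂ) * (conj y' * y)) := by
    intro x y x' y'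
    have e0 := h.e0 x y x' y'
    have hRR : ⟪Rf r x' y', Rf r x y⟫_ℂ =
        conj ⟪g, Rf r x' y'⟫_ℂ * ⟪g, Rf r x y⟫_ℂ * (((‖g‖ ^ 2)⁻¹ : ℝ) : ℂ)
      + conj y' * y * ⟪x' • n1 + y' • n2, x • n1 + y • n2⟫_ℂ := by
      conv_lhs => rw [hR x y, hR x' y']
      have w1 : ⟪g, x • n1 + y • n2⟫_ℂ = 0 := gW _ (W.add_mem (W.smul_mem _ n1W) (W.smul_mem _ n2W))
      have w2 : ⟪x' • n1 + y' • n2, g⟫_ℂ = 0 := Wg _ (W.add_mem (W.smul_mem _ n1W) (W.smul_mem _ n2W))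
      generalize ⟪g, Rf r x y⟫_ℂ = A at *
      generalize ⟪g, Rf r x' y'⟫_ℂ = B at *
      generalize hN : x • n1 + y • n2 = N at *
      generalize hN' : x' • n1 + y' • n2 = N' at *
      simp only [inner_add_left, inner_add_right, inner_smul_left, inner_smul_right, w1, w2,
        inner_self_ofReal g, map_mul, map_inv₀, Complex.conj_ofReal, mul_zero, add_zero, zero_add,
        Complex.ofReal_inv]
      generalize ((‖g‖ ^ 2 : ℝ) : ℂ) = D at *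
      field_simp
    rw [e0, hRR, hL, hL, inner_smul_left, inner_smul_right, inner_self_ofReal g]
    ring
  by_cases hG : ∃ x y, ⟪g, Rf r x y⟫_ℂ ≠ 0
  · have hTc := Tf_continuous t
    have hRc := Rf_continuous r
    exact gen W hf (Tf t) hTc hW.mem hW.sp (fun x y => ⟪g, Rf r x y⟫_ℂ) (fun x y => y)
      (by fun_prop) hG 0 1 (fun x y => by ring) (Or.inr one_ne_zero) (‖g‖ ^ 2) δp n1 n2 n1W n2W
      hTr1 hTr2 hE
  · push Not at hG
    have z1 : n1 = 0 := by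
      apply hW.sp n1 n1W
      intro x y
      rw [← inner_conj_symm, hTr1, hG, mul_zero, map_zero]
    have z2 : n2 = 0 := by
      apply hW.sp n2 n2W
      intro x y
      rw [← inner_conj_symm, hTr2, hG, mul_zero, map_zero]
    have := hE 0 1 0 1
    rw [hG, z1, z2, inner_self_ofReal] at this
    unfold ss at this
    simp only [mul_zero, smul_zero, add_zero, zero_mul, inner_zero_left, map_one, mul_one,
      map_zero, one_pow, zero_add, zero_sub, one_mul] at this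
    have h3 : ‖Tf t 0 1‖ ^ 2 = - ‖g‖ ^ 2 := by exact_mod_cast this
    have h4 := sq_nonneg ‖Tf t 0 1‖
    linarith

theorem caseThree : CaseThree := by
  intro l r t W h hW hf hL
  obtain ⟨x, y, hxy⟩ := hL
  -- `L` has values in the line `Wᗮ`
  have orthW : ∀ v : H4, (∀ x y, ⟪Tf t x y, v⟫_ℂ = 0) → v ∈ Wᗮ := by
    intro v hv
    obtain ⟨a, ha, b, hb, rfl⟩ := W.exists_add_mem_mem_orthogonal v
    have : a = 0 := by
      apply hW.sp a ha
      intro x y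
      have h1 := hv x y
      rw [inner_add_right, (W.mem_orthogonal b).1 hb _ (hW.mem x y), add_zero] at h1
      exact h1
    rw [this, zero_add]; exact hb
  have hf1 : Module.finrank ℂ (Wᗮ : Submodule ℂ H4) = 1 := by
    have h1 := W.finrank_add_finrank_orthogonal
    have h2 : Module.finrank ℂ H4 = 4 := by simp
    omega
  have g0 : Lf l x y ∈ Wᗮ := orthW _ (fun x' y' => h.e2 x y x' y')
  have gl0 : l 0 ∈ Wᗮ := orthW _ (fun x' y' => by have := h.e2 1 0 x' y'; rwa [Lf_10] at this)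
  have gl1 : l 1 ∈ Wᗮ := orthW _ (fun x' y' => by have := h.e2 0 1 x' y'; rwa [Lf_01] at this)
  have e0 := expand1 g0 hxy hf1 gl0
  have e1 := expand1 g0 hxy hf1 gl1
  generalize (⟪Lf l x y, l 0⟫_ℂ / ⟪Lf l x y, Lf l x y⟫_ℂ) = A at e0
  generalize (⟪Lf l x y, l 1⟫_ℂ / ⟪Lf l x y, Lf l x y⟫_ℂ) = B at e1
  have hAB : B ≠ 0 ∨ (-A) ≠ 0 := by
    by_contra hno
    push Not at hno
    rw [neg_eq_zero.1 hno.2, zero_smul] at e0
    rw [hno.1, zero_smul] at e1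
    apply hxy
    unfold Lf
    rw [e0, e1, smul_zero, smul_zero, add_zero]
  obtain ⟨c, hc, hcn⟩ := unit_of_ne hAB
  refine core _ _ _ W (h.rot hcn) (hW.rot hcn) hf ?_ ?_
  · show Lf l (c * B) (c * -A) = 0
    rw [Lf_smul]
    have : Lf l B (-A) = 0 := by
      conv_lhs => unfold Lf
      rw [e0, e1]
      rw [smul_smul, smul_smul, ← add_smul]
      have : B * A + -A * B = 0 := by ring
      rw [this, zero_smul]
    rw [this, smul_zero]
  · intro h1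
    have h0 : rl l (c * B) (c * -A) 0 = 0 := by
      show Lf l (c * B) (c * -A) = 0
      rw [Lf_smul]
      have : Lf l B (-A) = 0 := by
        conv_lhs => unfold Lf
        rw [e0, e1]
        rw [smul_smul, smul_smul, ← add_smul]
        have : B * A + -A * B = 0 := by ring
        rw [this, zero_smul]
      rw [this, smul_zero]
    obtain ⟨x', y', hx, hy⟩ := rot_surj hcn x y
    apply hxy
    rw [hx, hy, ← Lf_rl]
    show x' • rl l (c * B) (c * -A) 0 + y' • rl l (c * B) (c * -A) 1 = 0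
    rw [h0, h1, smul_zero, smul_zero, add_zero]

end Pool.Agent.W2helper54.SOS.Base3
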