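import Pool.Agent.W2helper66.SOS.BaseStm

/-!
# SOS, last case, piece K7, `CaseThree`: scalar part
-/

set_option autoImplicit false
open scoped ComplexConjugate InnerProductSpace

namespace Pool.Agent.W2helper54.SOS.Base3
open Pool.Agent.W2helper66.SOS.Base

theorem cont_zero (F : ℂ → ℂ → ℂ) (hF : Continuous (fun z : ℂ × ℂ => F z.1 z.2)) (α β : ℂ)
    (hab : α ≠ 0 ∨ β ≠ 0) (h : ∀ x y, F x y * (α * y - β * x) = 0) (x y : ℂ) : F x y = 0 := by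
  have hu : α * conj α - β * (-conj β) ≠ 0 := by
    have h1 : α * conj α - β * (-conj β) = ((‖α‖ ^ 2 + ‖β‖ ^ 2 : ℝ) : ℂ) := by
      push_cast
      rw [← Complex.mul_conj', ← Complex.mul_conj']; ring
    rw [h1, Complex.ofReal_ne_zero]
    rcases hab with h | h
    · have := norm_pos_iff.2 h
      positivity
    · have := norm_pos_iff.2 h
      positivity
  have hc : Continuous (fun τ : ℂ => F (x + τ * (-conj β)) (y + τ * conj α)) :=
    hF.comp (by fun_prop : Continuous fun τ : ℂ => (x + τ * (-conj β), y + τ * conj α))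
  by_cases hz : α * y - β * x = 0
  · have : (fun τ : ℂ => F (x + τ * (-conj β)) (y + τ * conj α)) = fun _ => 0 := by
      apply Continuous.ext_on (dense_compl_singleton (0:ℂ)) hc continuous_const
      intro τ hτ
      have h3 := h (x + τ * (-conj β)) (y + τ * conj α)
      have h2 : α * (y + τ * conj α) - β * (x + τ * (-conj β)) =
          τ * (α * conj α - β * (-conj β)) := by linear_combination hz
      rw [h2] at h3
      exact (mul_eq_zero.1 h3).resolve_right (mul_ne_zero hτ hu)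
    simpa using congrFun this 0
  · exact (mul_eq_zero.1 (h x y)).resolve_right hz

theorem prop_contra (P A B : ℂ → ℂ → ℂ) (hPc : Continuous (fun z : ℂ × ℂ => P z.1 z.2))
    (hA : ∀ x y x' y', P x' y' * A x y = P x y * A x' y')
    (hB : ∀ x y x' y', P x' y' * B x y = P x y * B x' y')
    (hyx : ∀ x y, y * A x y = x * B x y) (hP : ∃ x y, P x y ≠ 0)
    (hAB : ∃ x y, A x y ≠ 0 ∨ B x y ≠ 0) : False := by
  obtain ⟨x2, y2, h2⟩ := hP
  have h3 : ∀ x y, P x y * (A x2 y2 * y - B x2 y2 * x) = 0 := by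
    intro x y
    linear_combination (P x2 y2) * (hyx x y) - y * hA x y x2 y2 + x * hB x y x2 y2
  by_cases h0 : A x2 y2 ≠ 0 ∨ B x2 y2 ≠ 0
  · exact h2 (cont_zero P hPc _ _ h0 h3 x2 y2)
  · push Not at h0
    obtain ⟨x, y, hxy⟩ := hAB
    rcases hxy with h | h
    · have := hA x y x2 y2
      rw [h0.1, mul_zero] at this
      exact (mul_ne_zero h2 h) this
    · have := hB x y x2 y2
      rw [h0.2, mul_zero] at this
      exact (mul_ne_zero h2 h) this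

theorem ge1 (G P lam : ℂ → ℂ → ℂ) (a b : ℂ) (hlam : ∀ x y, lam x y = a * x + b * y)
    (hab : a ≠ 0 ∨ b ≠ 0) (δ ν1 ν2 φ : ℝ) (hδ : 0 < δ) (h1 : 0 < ν1) (h2 : 0 < ν2) (hφ : 0 < φ)
    (E : ∀ x y, ‖P x y‖ ^ 2 / φ = (ν1 - δ) * ‖x‖ ^ 2 * (‖G x y‖ ^ 2 / (δ * ν1)
        + (‖x‖ ^ 2 + ‖y‖ ^ 2) * ‖lam x y‖ ^ 2)
      + (ν2 - δ) * ‖y‖ ^ 2 * (‖G x y‖ ^ 2 / (δ * ν2) + (‖x‖ ^ 2 + ‖y‖ ^ 2) * ‖lam x y‖ ^ 2)) :
    δ ≤ ν1 := by
  by_contra hlt
  push Not at hlt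
  have key : ∀ y : ℂ, (ν2 - δ) * ‖y‖ ^ 2 < δ - ν1 → lam 1 y = 0 := by
    intro y hy
    have e := E 1 y
    have hP : 0 ≤ ‖P 1 y‖ ^ 2 / φ := by positivity
    have k1 : (ν1 - δ) / (δ * ν1) + (ν2 - δ) * ‖y‖ ^ 2 / (δ * ν2) ≤ 0 := by
      rcases le_or_gt ν2 δ with h | h
      · have i1 : (ν1 - δ) / (δ * ν1) ≤ 0 := div_nonpos_of_nonpos_of_nonneg (by linarith) (by positivity)
        have i2 : (ν2 - δ) * ‖y‖ ^ 2 / (δ * ν2) ≤ 0 :=
          div_nonpos_of_nonpos_of_nonneg (mul_nonpos_of_nonpos_of_nonneg (by linarith) (by positivity)) (by positivity)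
        linarith
      · have i2 : (ν2 - δ) * ‖y‖ ^ 2 / (δ * ν2) ≤ (ν2 - δ) * ‖y‖ ^ 2 / (δ * ν1) := by
          apply div_le_div_of_nonneg_left
          · exact mul_nonneg (by linarith) (by positivity)
          · positivity
          · exact mul_le_mul_of_nonneg_left (by linarith) hδ.le
        have i3 : (ν1 - δ) / (δ * ν1) + (ν2 - δ) * ‖y‖ ^ 2 / (δ * ν1) ≤ 0 := by
          rw [← add_div]
          exact div_nonpos_of_nonpos_of_nonneg (by linarith) (by positivity)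
        linarith
    have k2 : (ν1 - δ) + (ν2 - δ) * ‖y‖ ^ 2 < 0 := by linarith
    have e2 : ‖P 1 y‖ ^ 2 / φ = ‖G 1 y‖ ^ 2 * ((ν1 - δ) / (δ * ν1) + (ν2 - δ) * ‖y‖ ^ 2 / (δ * ν2))
        + ((ν1 - δ) + (ν2 - δ) * ‖y‖ ^ 2) * ((1 + ‖y‖ ^ 2) * ‖lam 1 y‖ ^ 2) := by
      rw [e]
      simp only [norm_one]
      ring
    by_contra hne
    have h3 : 0 < (1 + ‖y‖ ^ 2) * ‖lam 1 y‖ ^ 2 := by
      have := norm_pos_iff.2 hne
      positivity
    have h4 : ‖G 1 y‖ ^ 2 * ((ν1 - δ) / (δ * ν1) + (ν2 - δ) * ‖y‖ ^ 2 / (δ * ν2)) ≤ 0 :=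
      mul_nonpos_of_nonneg_of_nonpos (by positivity) k1
    have h5 : ((ν1 - δ) + (ν2 - δ) * ‖y‖ ^ 2) * ((1 + ‖y‖ ^ 2) * ‖lam 1 y‖ ^ 2) < 0 :=
      mul_neg_of_neg_of_pos k2 h3
    linarith
  have ha : a = 0 := by
    have := key 0 (by simp; linarith)
    rw [hlam] at this
    simpa using this
  have hb : b = 0 := by
    set t : ℝ := (δ - ν1) / (|ν2 - δ| + 1) with ht
    have htp : 0 < t := div_pos (by linarith) (by positivity)
    have hty : ‖((Real.sqrt t : ℝ) : ℂ)‖ ^ 2 = t := by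
      rw [Complex.norm_real, Real.norm_of_nonneg (Real.sqrt_nonneg _), Real.sq_sqrt htp.le]
    have := key (Real.sqrt t : ℝ) (by
      rw [hty]
      have h6 : (|ν2 - δ| + 1) * t = δ - ν1 := by
        rw [ht]; exact mul_div_cancel₀ _ (by positivity)
      have h7 : (ν2 - δ) * t ≤ |ν2 - δ| * t := mul_le_mul_of_nonneg_right (le_abs_self _) htp.le
      nlinarith)
    rw [hlam, ha] at this
    have h8 : ((Real.sqrt t : ℝ) : ℂ) ≠ 0 := Complex.ofReal_ne_zero.2 (Real.sqrt_pos.2 htp).ne'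
    simpa [h8] using this
  rcases hab with h | h
  · exact h ha
  · exact h hb

theorem final (G P lam : ℂ → ℂ → ℂ) (hPc : Continuous (fun z : ℂ × ℂ => P z.1 z.2)) (a b : ℂ)
    (hlam : ∀ x y, lam x y = a * x + b * y) (hab : a ≠ 0 ∨ b ≠ 0) (δ ν1 ν2 φ : ℝ) (hδ : 0 < δ)
    (h1 : 0 < ν1) (h2 : 0 < ν2) (hφ : 0 < φ) (hP : ∃ x y, P x y ≠ 0)
    (E : ∀ x y x' y', P x y * conj (P x' y') * ((φ⁻¹ : ℝ) : ℂ) =
      ((ν1 - δ : ℝ) : ℂ) * (x * conj x') * (G x y * conj (G x' y') * (((δ * ν1)⁻¹ : ℝ) : ℂ)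
        + ss x y x' y' * (lam x y * conj (lam x' y')))
      + ((ν2 - δ : ℝ) : ℂ) * (y * conj y') * (G x y * conj (G x' y') * (((δ * ν2)⁻¹ : ℝ) : ℂ)
        + ss x y x' y' * (lam x y * conj (lam x' y')))) : False := by
  have Ed : ∀ x y, ‖P x y‖ ^ 2 / φ = (ν1 - δ) * ‖x‖ ^ 2 * (‖G x y‖ ^ 2 / (δ * ν1)
        + (‖x‖ ^ 2 + ‖y‖ ^ 2) * ‖lam x y‖ ^ 2)
      + (ν2 - δ) * ‖y‖ ^ 2 * (‖G x y‖ ^ 2 / (δ * ν2) + (‖x‖ ^ 2 + ‖y‖ ^ 2) * ‖lam x y‖ ^ 2) := by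
    intro x y
    have e := E x y x y
    unfold ss at e
    simp only [Complex.mul_conj'] at e
    simp only [div_eq_mul_inv]
    exact_mod_cast e
  have g1 : δ ≤ ν1 := ge1 G P lam a b hlam hab δ ν1 ν2 φ hδ h1 h2 hφ Ed
  have g2 : δ ≤ ν2 := by
    apply ge1 (fun x y => G y x) (fun x y => P y x) (fun x y => lam y x) b a
      (fun x y => by rw [hlam]; ring) hab.symm δ ν2 ν1 φ hδ h2 h1 hφ
    intro x y
    rw [Ed y x]
    ring
  -- two point identity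
  have two : ∀ x1 y1 x2 y2,
      (ν1 - δ) * (‖P x2 y2 * x1 * G x1 y1 - P x1 y1 * x2 * G x2 y2‖ ^ 2 * (δ * ν1)⁻¹
        + ‖P x2 y2 * x1 ^ 2 * lam x1 y1 - P x1 y1 * x2 ^ 2 * lam x2 y2‖ ^ 2
        + ‖P x2 y2 * (x1 * y1) * lam x1 y1 - P x1 y1 * (x2 * y2) * lam x2 y2‖ ^ 2)
      + (ν2 - δ) * (‖P x2 y2 * y1 * G x1 y1 - P x1 y1 * y2 * G x2 y2‖ ^ 2 * (δ * ν2)⁻¹
        + ‖P x2 y2 * (x1 * y1) * lam x1 y1 - P x1 y1 * (x2 * y2) * lam x2 y2‖ ^ 2
        + ‖P x2 y2 * y1 ^ 2 * lam x1 y1 - P x1 y1 * y2 ^ 2 * lam x2 y2‖ ^ 2) = 0 := by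
    intro x1 y1 x2 y2
    have e11 := E x1 y1 x1 y1
    have e12 := E x1 y1 x2 y2
    have e21 := E x2 y2 x1 y1
    have e22 := E x2 y2 x2 y2
    apply Complex.ofReal_injective
    push_cast
    simp only [← Complex.mul_conj', map_sub, map_mul, map_pow]
    unfold ss at e11 e12 e21 e22
    push_cast at e11 e12 e21 e22
    linear_combination (-(P x2 y2 * conj (P x2 y2))) * e11 + (P x2 y2 * conj (P x1 y1)) * e12
      + (P x1 y1 * conj (P x2 y2)) * e21 - (P x1 y1 * conj (P x1 y1)) * e22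
  have two1 : ∀ x1 y1 x2 y2, δ < ν1 →
      P x2 y2 * x1 ^ 2 * lam x1 y1 - P x1 y1 * x2 ^ 2 * lam x2 y2 = 0 ∧
      P x2 y2 * (x1 * y1) * lam x1 y1 - P x1 y1 * (x2 * y2) * lam x2 y2 = 0 := by
    intro x1 y1 x2 y2 hlt
    have e := two x1 y1 x2 y2
    have t2 : 0 ≤ (ν2 - δ) * (‖P x2 y2 * y1 * G x1 y1 - P x1 y1 * y2 * G x2 y2‖ ^ 2 * (δ * ν2)⁻¹
        + ‖P x2 y2 * (x1 * y1) * lam x1 y1 - P x1 y1 * (x2 * y2) * lam x2 y2‖ ^ 2
        + ‖P x2 y2 * y1 ^ 2 * lam x1 y1 - P x1 y1 * y2 ^ 2 * lam x2 y2‖ ^ 2) :=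
      mul_nonneg (by linarith) (by positivity)
    have t1 : (‖P x2 y2 * x1 * G x1 y1 - P x1 y1 * x2 * G x2 y2‖ ^ 2 * (δ * ν1)⁻¹
        + ‖P x2 y2 * x1 ^ 2 * lam x1 y1 - P x1 y1 * x2 ^ 2 * lam x2 y2‖ ^ 2
        + ‖P x2 y2 * (x1 * y1) * lam x1 y1 - P x1 y1 * (x2 * y2) * lam x2 y2‖ ^ 2) ≤ 0 := by
      by_contra hh
      push Not at hh
      have := mul_pos (sub_pos.2 hlt) hh
      linarith
    have t3 : 0 ≤ ‖P x2 y2 * x1 * G x1 y1 - P x1 y1 * x2 * G x2 y2‖ ^ 2 * (δ * ν1)⁻¹ := by positivity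
    constructor
    · rw [← norm_eq_zero, ← sq_eq_zero_iff]
      apply le_antisymm _ (by positivity)
      have := sq_nonneg ‖P x2 y2 * (x1 * y1) * lam x1 y1 - P x1 y1 * (x2 * y2) * lam x2 y2‖
      linarith
    · rw [← norm_eq_zero, ← sq_eq_zero_iff]
      apply le_antisymm _ (by positivity)
      have := sq_nonneg ‖P x2 y2 * x1 ^ 2 * lam x1 y1 - P x1 y1 * x2 ^ 2 * lam x2 y2‖
      linarith
  have two2 : ∀ x1 y1 x2 y2, δ < ν2 →
      P x2 y2 * (x1 * y1) * lam x1 y1 - P x1 y1 * (x2 * y2) * lam x2 y2 = 0 ∧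
      P x2 y2 * y1 ^ 2 * lam x1 y1 - P x1 y1 * y2 ^ 2 * lam x2 y2 = 0 := by
    intro x1 y1 x2 y2 hlt
    have e := two x1 y1 x2 y2
    have t2 : 0 ≤ (ν1 - δ) * (‖P x2 y2 * x1 * G x1 y1 - P x1 y1 * x2 * G x2 y2‖ ^ 2 * (δ * ν1)⁻¹
        + ‖P x2 y2 * x1 ^ 2 * lam x1 y1 - P x1 y1 * x2 ^ 2 * lam x2 y2‖ ^ 2
        + ‖P x2 y2 * (x1 * y1) * lam x1 y1 - P x1 y1 * (x2 * y2) * lam x2 y2‖ ^ 2) :=
      mul_nonneg (by linarith) (by positivity)
    have t1 : (‖P x2 y2 * y1 * G x1 y1 - P x1 y1 * y2 * G x2 y2‖ ^ 2 * (δ * ν2)⁻¹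
        + ‖P x2 y2 * (x1 * y1) * lam x1 y1 - P x1 y1 * (x2 * y2) * lam x2 y2‖ ^ 2
        + ‖P x2 y2 * y1 ^ 2 * lam x1 y1 - P x1 y1 * y2 ^ 2 * lam x2 y2‖ ^ 2) ≤ 0 := by
      by_contra hh
      push Not at hh
      have := mul_pos (sub_pos.2 hlt) hh
      linarith
    have t3 : 0 ≤ ‖P x2 y2 * y1 * G x1 y1 - P x1 y1 * y2 * G x2 y2‖ ^ 2 * (δ * ν2)⁻¹ := by positivity
    constructor
    · rw [← norm_eq_zero, ← sq_eq_zero_iff]
      apply le_antisymm _ (by positivity)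
      have := sq_nonneg ‖P x2 y2 * y1 ^ 2 * lam x1 y1 - P x1 y1 * y2 ^ 2 * lam x2 y2‖
      linarith
    · rw [← norm_eq_zero, ← sq_eq_zero_iff]
      apply le_antisymm _ (by positivity)
      have := sq_nonneg ‖P x2 y2 * (x1 * y1) * lam x1 y1 - P x1 y1 * (x2 * y2) * lam x2 y2‖
      linarith
  -- a point where lam, x, y are all nonzero
  obtain ⟨x0, y0, hx0, hy0, hl0⟩ : ∃ x0 y0 : ℂ, x0 ≠ 0 ∧ y0 ≠ 0 ∧ lam x0 y0 ≠ 0 := by
    by_contra hno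
    push Not at hno
    have f1 := hno 1 1 one_ne_zero one_ne_zero
    have f2 := hno 1 (-1) one_ne_zero (by norm_num)
    rw [hlam] at f1 f2
    have fa : a = 0 := by linear_combination (f1 + f2) / 2
    have fb : b = 0 := by linear_combination (f1 - f2) / 2
    rcases hab with h | h
    · exact h fa
    · exact h fb
  rcases lt_or_eq_of_le g1 with hlt | heq
  · apply prop_contra P (fun x y => x ^ 2 * lam x y) (fun x y => (x * y) * lam x y) hPc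
      (fun x y x' y' => by linear_combination (two1 x y x' y' hlt).1)
      (fun x y x' y' => by linear_combination (two1 x y x' y' hlt).2)
      (fun x y => by ring) hP
    exact ⟨x0, y0, Or.inl (mul_ne_zero (pow_ne_zero _ hx0) hl0)⟩
  rcases lt_or_eq_of_le g2 with hlt | heq2
  · apply prop_contra P (fun x y => (x * y) * lam x y) (fun x y => y ^ 2 * lam x y) hPc
      (fun x y x' y' => by linear_combination (two2 x y x' y' hlt).1)
      (fun x y x' y' => by linear_combination (two2 x y x' y' hlt).2)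
      (fun x y => by ring) hP
    exact ⟨x0, y0, Or.inl (mul_ne_zero (mul_ne_zero hx0 hy0) hl0)⟩
  · obtain ⟨x, y, hxy⟩ := hP
    have := Ed x y
    rw [← heq, ← heq2, sub_self, zero_mul, zero_mul, zero_mul, zero_mul, add_zero] at this
    have h3 : 0 < ‖P x y‖ ^ 2 / φ := by
      have := norm_pos_iff.2 hxy
      positivity
    linarith

end Pool.Agent.W2helper54.SOS.Base3
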