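import Pool.Agent.W2helper54.SOS.Norm

/-!
# Piece K6 of MP_ce7760_an : case A (`u ≠ 0`)
-/

open MvPolynomial

namespace Pool.Agent.W2helper54.SOS

open Pool.Agent.W2helper74.SOS

/-- case (A) -/
theorem caseA (hC : CritMain) {g1 g2 : ℝ} (hg1 : 0 ≤ g1) (h12 : g1 ≤ g2)
    {u r1 r2 κ : Fin 3 → ℂ} (hu : u ≠ 0)
    {t1 t2 t3 : Fin 4 → ℂ} (h : NS g1 g2 u r1 r2 κ t1 t2 t3) : False := by
  have hu' : ∃ x y, q2 u x y ≠ 0 := by
    by_contra hcon
    push Not at hcon
    exact hu (q2_eq_zero hcon)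
  have hg1' : g1 ≠ 0 := by
    rintro rfl
    rcases isPoly_fst.mul_eq_zero (isPoly_q2 u) (fun x y => by
      have := h.e21 x y
      rw [← this]; simp) with h0 | h0
    · exact absurd (h0 1 1) one_ne_zero
    · exact hu (q2_eq_zero h0)
  have hg1p : 0 < g1 := lt_of_le_of_ne hg1 (Ne.symm hg1')
  have hg2p : 0 < g2 := lt_of_lt_of_le hg1p h12
  have hc1 : (g1 : ℂ) ≠ 0 := by exact_mod_cast hg1'
  have hc2 : (g2 : ℂ) ≠ 0 := by exact_mod_cast hg2p.ne'
  have ht1 : ∀ x y, q3 t1 x y = x * q2 u x y / g1 := by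
    intro x y
    rw [eq_div_iff hc1]
    linear_combination h.e21 x y
  have ht2 : ∀ x y, q3 t2 x y = y * q2 u x y / g2 := by
    intro x y
    rw [eq_div_iff hc2]
    linear_combination h.e22 x y
  have ht1c : ∀ X Y, q3 (cj t1) X Y = X * q2 (cj u) X Y / g1 := by
    intro X Y
    rw [q3_cj, ht1, q2_cj]
    simp
  have ht2c : ∀ X Y, q3 (cj t2) X Y = Y * q2 (cj u) X Y / g2 := by
    intro X Y
    rw [q3_cj, ht2, q2_cj]
    simp
  -- no common zero of `u` and `t3`
  have hnz : ∀ x y : ℂ, (x ≠ 0 ∨ y ≠ 0) → q2 u x y = 0 → q3 t3 x y ≠ 0 := by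
    intro x y hxy h0
    rcases h.nz x y hxy with h1 | h1 | h1
    · exact absurd (by rw [ht1, h0]; simp) h1
    · exact absurd (by rw [ht2, h0]; simp) h1
    · exact h1
  -- the equation on `s = 0`
  have hs : ∀ x y, q3 (st3 t3) x y * q3 t3 x y =
      q2 u x y * ((1 / g1 ^ 2 - 1 / g2 ^ 2) * x * y * q2 (st2 u) x y) := by
    intro x y
    have := h.e0 x y (-y) x
    rw [ht1, ht1c, ht2, ht2c] at this
    rw [q3_st, q2_st]
    have e : (x * -y + y * x : ℂ) = 0 := by ring
    rw [e] at this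
    field_simp at this ⊢
    linear_combination this
  obtain ⟨m, hm⟩ := dvd_q3 hu' (isPoly_q3 t3)
    ((((isPoly_const (1 / g1 ^ 2 - 1 / g2 ^ 2)).mul isPoly_fst).mul isPoly_snd).mul
      (isPoly_q2 (st2 u))) hs hnz
  -- `p = - u^* m^*`
  have hp : ∀ x y, q3 t3 x y = - ((- star (m 0) * y + star (m 1) * x) * q2 (st2 u) x y) := by
    intro x y
    have := congrArg star (hm (- star y) (star x))
    rw [q3_st, q3_cj, star_star] at this
    rw [q2_st, q2_cj]
    simp only [q1, star_mul', star_add, star_neg, star_star] at this ⊢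
    have e : q3 t3 (-x) (-y) = - q3 t3 x y := by simp only [q3]; ring
    rw [e] at this
    linear_combination -this
  have hus' : ∃ x y, q2 (st2 u) x y ≠ 0 := by
    by_contra hcon
    push Not at hcon
    exact hu (st2_zero hcon)
  -- the linear form `m`
  have hmm : ∀ x y : ℂ, -(q1 m x y * (- star (m 0) * y + star (m 1) * x)) =
      (1 / g1 ^ 2 - 1 / g2 ^ 2) * x * y := by
    have hm' : IsPoly (fun x y => - star (m 0) * y + star (m 1) * x) :=
      ⟨C (- star (m 0)) * X 1 + C (star (m 1)) * X 0, fun x y => by simp⟩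
    have hm'' : IsPoly (fun x y => -(q1 m x y * (- star (m 0) * y + star (m 1) * x))) := by
      obtain ⟨f, hf⟩ := (isPoly_q1 m).mul hm'
      exact ⟨-f, fun x y => by rw [map_neg, hf]⟩
    refine (isPoly_q2 (st2 u)).cancel hm''
      (((isPoly_const (1 / g1 ^ 2 - 1 / g2 ^ 2)).mul isPoly_fst).mul isPoly_snd) hus' ?_
    have h1 : ∀ x y, q1 m x y * q3 t3 x y =
        (1 / g1 ^ 2 - 1 / g2 ^ 2) * x * y * q2 (st2 u) x y := by
      refine (isPoly_q2 u).cancel ((isPoly_q1 m).mul (isPoly_q3 t3))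
        ((((isPoly_const (1 / g1 ^ 2 - 1 / g2 ^ 2)).mul isPoly_fst).mul isPoly_snd).mul
          (isPoly_q2 (st2 u))) hu' ?_
      intro x y
      have := hs x y
      rw [hm] at this
      linear_combination this
    intro x y
    have := h1 x y
    rw [hp] at this
    linear_combination this
  have m10 := hmm 1 0
  have m01 := hmm 0 1
  have m11 := hmm 1 1
  simp only [q1] at m10 m01 m11
  have hmn : ((Complex.normSq (m 0) - Complex.normSq (m 1) : ℝ) : ℂ) =
      ((1 / g1 ^ 2 - 1 / g2 ^ 2 : ℝ) : ℂ) := by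
    push_cast
    rw [← Complex.mul_conj, ← Complex.mul_conj]
    have e0 : (starRingEnd ℂ) (m 0) = star (m 0) := rfl
    have e1 : (starRingEnd ℂ) (m 1) = star (m 1) := rfl
    rw [e0, e1]
    linear_combination m11 - m10 - m01
  have hmn' : Complex.normSq (m 0) - Complex.normSq (m 1) = 1 / g1 ^ 2 - 1 / g2 ^ 2 := by
    exact_mod_cast hmn
  have hαβ : 1 / g2 ^ 2 ≤ 1 / g1 ^ 2 := by
    apply one_div_le_one_div_of_le (by positivity)
    exact pow_le_pow_left₀ hg1 h12 2
  have hm0 : m 0 ≠ 0 := by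
    intro h0
    rw [h0] at hmn'
    simp only [map_zero, zero_sub] at hmn'
    have h1 : Complex.normSq (m 1) = 0 :=
      le_antisymm (by linarith) (Complex.normSq_nonneg _)
    have h1' : m 1 = 0 := by simpa using h1
    obtain ⟨x, y, hxy, hr⟩ := q2_root u
    apply hnz x y hxy hr
    rw [hp, h0, h1']
    simp
  have hm1 : m 1 = 0 := by
    have : m 0 * star (m 1) = 0 := by linear_combination -m10
    rcases mul_eq_zero.mp this with h0 | h0
    · exact absurd h0 hm0
    · simpa using h0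
  have hn0 : Complex.normSq (m 0) = 1 / g1 ^ 2 - 1 / g2 ^ 2 := by
    rw [← hmn', hm1]; simp
  have hn0' : m 0 * star (m 0) = 1 / g1 ^ 2 - 1 / g2 ^ 2 := by
    have e0 : star (m 0) = (starRingEnd ℂ) (m 0) := rfl
    rw [e0, Complex.mul_conj, hn0]
    push_cast
    ring
  have hlt : 1 / g2 ^ 2 < 1 / g1 ^ 2 := by
    have : 0 < Complex.normSq (m 0) := Complex.normSq_pos.mpr hm0
    linarith
  have hp' : ∀ x y, q3 t3 x y = star (m 0) * y * q2 (st2 u) x y := by
    intro x y
    rw [hp, hm1]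
    simp only [star_zero]
    ring
  have hpc : ∀ X Y, q3 (cj t3) X Y = m 0 * Y * (u 2 * X ^ 2 - u 1 * X * Y + u 0 * Y ^ 2) := by
    intro X Y
    rw [q3_cj, hp']
    simp only [q2, st2, Matrix.cons_val_zero, Matrix.cons_val_one, Matrix.cons_val, star_mul',
      star_add, star_neg, star_star, star_pow]
    ring
  have ha : u 0 ≠ 0 := by
    intro h0
    apply hnz 1 0 (Or.inl one_ne_zero) (by simp [q2, h0])
    rw [hp']
    simp
  -- `κ` is a multiple of `u^*`
  obtain ⟨k0, hk0⟩ : ∃ k : ℂ, ∀ x y, q2 κ x y = k * q2 (st2 u) x y := by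
    refine dvd_q2 hus' (F := fun x y => m 0 * x * q2 u x y)
      (G := fun x y => y * (q2 r1 x y * (1 / g1)) - x * (q2 r2 x y * (1 / g2)))
      (((isPoly_const _).mul isPoly_fst).mul (isPoly_q2 u))
      ((isPoly_snd.mul ((isPoly_q2 r1).mul (isPoly_const _))).sub
        (isPoly_fst.mul ((isPoly_q2 r2).mul (isPoly_const _)))) ?_ ?_
    · intro x y
      have := h.e1 x y (-y) x
      rw [ht1c, ht2c, ← q3_st t3 x y, hm, ← q2_st u x y] at this
      simp only [q1, hm1] at this
      have e : (x * -y + y * x : ℂ) = 0 := by ring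
      rw [e] at this
      linear_combination this
    · intro x y hxy h0
      have hx : x ≠ 0 := by
        rintro rfl
        have hy : y ≠ 0 := by simpa using hxy
        simp [q2, st2] at h0
        rcases h0 with h0 | h0
        · exact ha h0
        · exact hy h0
      refine mul_ne_zero (mul_ne_zero hm0 hx) ?_
      intro h1
      apply hnz x y hxy h1
      rw [hp', h0, mul_zero]
  refine hC (1 / g1 ^ 2) (1 / g2 ^ 2) (u 0) (u 1) (u 2) (k0 * m 0) (fun i => g1 * r1 i)
    (fun i => g2 * r2 i) (by positivity) hlt ha ?_ ?_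
  · intro x y X Y
    have := h.e1 x y X Y
    rw [ht1c, ht2c, hk0, hpc] at this
    simp only [q2, st2, cj, Matrix.cons_val_zero, Matrix.cons_val_one, Matrix.cons_val, star_mul',
      star_add, star_neg, star_star, Complex.star_def, Complex.conj_ofReal] at this ⊢
    push_cast
    field_simp at this ⊢
    linear_combination this
  · intro x y X Y
    have := h.e0 x y X Y
    rw [ht1, ht2, ht1c, ht2c, hp', hpc] at this
    have hκc : q2 (cj κ) X Y = star k0 * (u 2 * X ^ 2 - u 1 * X * Y + u 0 * Y ^ 2) := by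
      rw [q2_cj, hk0]
      simp only [q2, st2, Matrix.cons_val_zero, Matrix.cons_val_one, Matrix.cons_val, star_mul',
        star_add, star_neg, star_star, star_pow]
      ring
    rw [hk0, hκc] at this
    have hne : (1 / g1 ^ 2 - 1 / g2 ^ 2 : ℂ) ≠ 0 := by
      rw [← hn0']
      exact mul_ne_zero hm0 (by simpa using hm0)
    have hkk : k0 * m 0 * star (k0 * m 0) / (((1 / g1 ^ 2 : ℝ) : ℂ) - ((1 / g2 ^ 2 : ℝ) : ℂ)) =
        k0 * star k0 := by
      push_cast
      rw [div_eq_iff hne, ← hn0', star_mul']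
      ring
    rw [hkk]
    have hpp : q2 (fun i => (g1 : ℂ) * r1 i) x y = g1 * q2 r1 x y := by
      simp only [q2]; ring
    have hqq : q2 (fun i => (g2 : ℂ) * r2 i) x y = g2 * q2 r2 x y := by
      simp only [q2]; ring
    have hppc : q2 (cj (fun i => (g1 : ℂ) * r1 i)) X Y = g1 * q2 (cj r1) X Y := by
      simp only [q2, cj, star_mul', Complex.star_def, Complex.conj_ofReal]; ring
    have hqqc : q2 (cj (fun i => (g2 : ℂ) * r2 i)) X Y = g2 * q2 (cj r2) X Y := by
      simp only [q2, cj, star_mul', Complex.star_def, Complex.conj_ofReal]; ring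
    rw [hpp, hqq, hppc, hqqc]
    have e1 : q2 (cj u) X Y = star (u 0) * X ^ 2 + star (u 1) * X * Y + star (u 2) * Y ^ 2 := by
      simp only [q2, cj]
    have e2 : q2 u x y = u 0 * x ^ 2 + u 1 * x * y + u 2 * y ^ 2 := by simp only [q2]
    have e3 : q2 (st2 u) x y = star (u 2) * x ^ 2 - star (u 1) * x * y + star (u 0) * y ^ 2 := by
      simp only [q2, st2, Matrix.cons_val_zero, Matrix.cons_val_one, Matrix.cons_val]
      ring
    rw [e1, e2, e3] at this
    generalize u 0 * x ^ 2 + u 1 * x * y + u 2 * y ^ 2 = U at *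
    generalize star (u 0) * X ^ 2 + star (u 1) * X * Y + star (u 2) * Y ^ 2 = Uc at *
    generalize star (u 2) * x ^ 2 - star (u 1) * x * y + star (u 0) * y ^ 2 = Us at *
    generalize u 2 * X ^ 2 - u 1 * X * Y + u 0 * Y ^ 2 = Ut at *
    generalize q2 r1 x y = R1 at *
    generalize q2 r2 x y = R2 at *
    generalize q2 (cj r1) X Y = S1 at *
    generalize q2 (cj r2) X Y = S2 at *
    have hn0'' := hn0'
    push_cast
    have i1 : (g1 : ℂ) * (1 / g1) = 1 := by field_simp
    have i2 : (g2 : ℂ) * (1 / g2) = 1 := by field_simp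
    have j1 : (x * X / (1 / (g1 : ℂ) ^ 2)) = x * X * g1 ^ 2 := by field_simp
    have j2 : (y * Y / (1 / (g2 : ℂ) ^ 2)) = y * Y * g2 ^ 2 := by field_simp
    rw [j1, j2]
    have k1 : 1 / (g1 : ℂ) ^ 2 * (g1 * R1) * (g1 * S1) = R1 * S1 := by field_simp
    have k2 : 1 / (g2 : ℂ) ^ 2 * (g2 * R2) * (g2 * S2) = R2 * S2 := by field_simp
    rw [k1, k2]
    linear_combination this - y * Y * Us * Ut * hn0''

end Pool.Agent.W2helper54.SOS
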