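import Pool.Agent.W2helper74.SOS.Stm2

/-!
# Binary forms of degree `≤ 3` : roots, division, cancellation (for piece K6 of MP_ce7760_an)
-/

open MvPolynomial

namespace Pool.Agent.W2helper54.SOS

open Pool.Agent.W2helper74.SOS

/-- `F` is a polynomial function of two variables -/
def IsPoly (F : ℂ → ℂ → ℂ) : Prop := ∃ f : MvPolynomial (Fin 2) ℂ, ∀ x y, eval ![x, y] f = F x y

theorem IsPoly.mul {F G : ℂ → ℂ → ℂ} (hF : IsPoly F) (hG : IsPoly G) :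
    IsPoly (fun x y => F x y * G x y) := by
  obtain ⟨f, hf⟩ := hF
  obtain ⟨g, hg⟩ := hG
  exact ⟨f * g, fun x y => by simp [hf, hg]⟩

theorem IsPoly.add {F G : ℂ → ℂ → ℂ} (hF : IsPoly F) (hG : IsPoly G) :
    IsPoly (fun x y => F x y + G x y) := by
  obtain ⟨f, hf⟩ := hF
  obtain ⟨g, hg⟩ := hG
  exact ⟨f + g, fun x y => by simp [hf, hg]⟩

theorem IsPoly.sub {F G : ℂ → ℂ → ℂ} (hF : IsPoly F) (hG : IsPoly G) :
    IsPoly (fun x y => F x y - G x y) := by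
  obtain ⟨f, hf⟩ := hF
  obtain ⟨g, hg⟩ := hG
  exact ⟨f - g, fun x y => by simp [hf, hg]⟩

theorem isPoly_const (c : ℂ) : IsPoly (fun _ _ => c) := ⟨C c, fun x y => by simp⟩

theorem isPoly_fst : IsPoly (fun x _ => x) := ⟨X 0, fun x y => by simp⟩

theorem isPoly_snd : IsPoly (fun _ y => y) := ⟨X 1, fun x y => by simp⟩

theorem isPoly_q1 (a : Fin 2 → ℂ) : IsPoly (q1 a) :=
  ⟨C (a 0) * X 0 + C (a 1) * X 1, fun x y => by simp [q1]⟩

theorem isPoly_q2 (a : Fin 3 → ℂ) : IsPoly (q2 a) :=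
  ⟨C (a 0) * X 0 ^ 2 + C (a 1) * X 0 * X 1 + C (a 2) * X 1 ^ 2, fun x y => by simp [q2]⟩

theorem isPoly_q3 (a : Fin 4 → ℂ) : IsPoly (q3 a) :=
  ⟨C (a 0) * X 0 ^ 3 + C (a 1) * X 0 ^ 2 * X 1 + C (a 2) * X 0 * X 1 ^ 2 + C (a 3) * X 1 ^ 3,
    fun x y => by simp [q3]⟩

theorem IsPoly.mul_eq_zero {F G : ℂ → ℂ → ℂ} (hF : IsPoly F) (hG : IsPoly G)
    (h : ∀ x y, F x y * G x y = 0) : (∀ x y, F x y = 0) ∨ (∀ x y, G x y = 0) := by
  obtain ⟨f, hf⟩ := hF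
  obtain ⟨g, hg⟩ := hG
  have hfg : f * g = 0 := by
    apply MvPolynomial.funext
    intro v
    have hv : v = ![v 0, v 1] := by
      ext i; fin_cases i <;> rfl
    rw [hv, map_mul, hf, hg, h, map_zero]
  rcases _root_.mul_eq_zero.mp hfg with h0 | h0
  · left; intro x y; rw [← hf, h0, map_zero]
  · right; intro x y; rw [← hg, h0, map_zero]

theorem IsPoly.cancel {P F G : ℂ → ℂ → ℂ} (hP : IsPoly P) (hF : IsPoly F) (hG : IsPoly G)
    (hP0 : ∃ x y, P x y ≠ 0) (h : ∀ x y, P x y * F x y = P x y * G x y) :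
    ∀ x y, F x y = G x y := by
  rcases hP.mul_eq_zero (hF.sub hG) (fun x y => by rw [mul_sub, h, sub_self]) with h0 | h0
  · obtain ⟨x, y, hxy⟩ := hP0
    exact absurd (h0 x y) hxy
  · intro x y
    exact sub_eq_zero.mp (h0 x y)

/-- the linear form with root `(x0, y0)` -/
theorem isPoly_lin (x0 y0 : ℂ) : IsPoly (fun x y => y0 * x - x0 * y) :=
  ⟨C y0 * X 0 - C x0 * X 1, fun x y => by simp⟩

theorem lin_ne {x0 y0 : ℂ} (h : x0 ≠ 0 ∨ y0 ≠ 0) : ∃ x y : ℂ, y0 * x - x0 * y ≠ 0 := by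
  rcases h with h | h
  · exact ⟨0, 1, by simpa using h⟩
  · exact ⟨1, 0, by simpa using h⟩

theorem q2_eq_zero {a : Fin 3 → ℂ} (h : ∀ x y, q2 a x y = 0) : a = 0 := by
  have h1 := h 1 0
  have h2 := h 0 1
  have h3 := h 1 1
  simp only [q2] at h1 h2 h3
  ext i
  fin_cases i
  · simpa using h1
  · simp only [Pi.zero_apply]
    simp at h1 h2 h3 ⊢
    rw [h1, h2] at h3
    simpa using h3
  · simpa using h2

theorem q3_eq_zero {a : Fin 4 → ℂ} (h : ∀ x y, q3 a x y = 0) : a = 0 := by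
  have h1 := h 1 0
  have h2 := h 0 1
  have h3 := h 1 1
  have h4 := h 1 (-1)
  simp only [q3] at h1 h2 h3 h4
  have e0 : a 0 = 0 := by linear_combination h1
  have e3 : a 3 = 0 := by linear_combination h2
  have e1 : a 1 = 0 := by linear_combination (1/2 : ℂ) * h3 - (1/2 : ℂ) * h4 - e3
  have e2 : a 2 = 0 := by linear_combination (1/2 : ℂ) * h3 + (1/2 : ℂ) * h4 - e0
  ext i
  fin_cases i
  · exact e0
  · exact e1
  · exact e2
  · exact e3

theorem q1_root (a : Fin 2 → ℂ) : ∃ x y : ℂ, (x ≠ 0 ∨ y ≠ 0) ∧ q1 a x y = 0 := by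
  by_cases h : a 0 = 0
  · exact ⟨1, 0, Or.inl one_ne_zero, by simp [q1, h]⟩
  · exact ⟨- a 1, a 0, Or.inr h, by simp only [q1]; ring⟩

theorem q2_root (a : Fin 3 → ℂ) : ∃ x y : ℂ, (x ≠ 0 ∨ y ≠ 0) ∧ q2 a x y = 0 := by
  by_cases h : a 0 = 0
  · exact ⟨1, 0, Or.inl one_ne_zero, by simp [q2, h]⟩
  · obtain ⟨δ, hδ⟩ := IsAlgClosed.exists_pow_nat_eq (a 1 ^ 2 - 4 * a 0 * a 2) (n := 2) (by norm_num)
    refine ⟨(- a 1 + δ) / (2 * a 0), 1, Or.inr one_ne_zero, ?_⟩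
    simp only [q2]
    field_simp
    linear_combination hδ

theorem q3_root (a : Fin 4 → ℂ) : ∃ x y : ℂ, (x ≠ 0 ∨ y ≠ 0) ∧ q3 a x y = 0 := by
  by_cases h : a 0 = 0
  · exact ⟨1, 0, Or.inl one_ne_zero, by simp [q3, h]⟩
  · obtain ⟨x, hx⟩ := IsAlgClosed.exists_root
      (Polynomial.C (a 0) * Polynomial.X ^ 3 + Polynomial.C (a 1) * Polynomial.X ^ 2 +
        Polynomial.C (a 2) * Polynomial.X + Polynomial.C (a 3))
      (by rw [Polynomial.degree_cubic h]; norm_num)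
    refine ⟨x, 1, Or.inr one_ne_zero, ?_⟩
    have := hx
    simp only [Polynomial.IsRoot, Polynomial.eval_add, Polynomial.eval_mul, Polynomial.eval_C,
      Polynomial.eval_pow, Polynomial.eval_X] at this
    simp only [q3]
    linear_combination this

theorem q1_div {a : Fin 2 → ℂ} {x0 y0 : ℂ} (h : x0 ≠ 0 ∨ y0 ≠ 0) (h0 : q1 a x0 y0 = 0) :
    ∃ b : ℂ, ∀ x y, q1 a x y = (y0 * x - x0 * y) * b := by
  simp only [q1] at h0 ⊢
  rcases h with h | h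
  · refine ⟨- a 1 / x0, fun x y => ?_⟩
    field_simp
    linear_combination x * h0
  · refine ⟨a 0 / y0, fun x y => ?_⟩
    field_simp
    linear_combination y * h0

theorem q2_div {a : Fin 3 → ℂ} {x0 y0 : ℂ} (h : x0 ≠ 0 ∨ y0 ≠ 0) (h0 : q2 a x0 y0 = 0) :
    ∃ b : Fin 2 → ℂ, ∀ x y, q2 a x y = (y0 * x - x0 * y) * q1 b x y := by
  simp only [q2, q1] at h0 ⊢
  rcases h with h | h
  · refine ⟨![-(a 1 + y0 * (a 2 / x0)) / x0, - a 2 / x0], fun x y => ?_⟩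
    simp only [Matrix.cons_val_zero, Matrix.cons_val_one]
    field_simp
    linear_combination x ^ 2 * h0
  · refine ⟨![a 0 / y0, (a 1 + x0 * (a 0 / y0)) / y0], fun x y => ?_⟩
    simp only [Matrix.cons_val_zero, Matrix.cons_val_one]
    field_simp
    linear_combination y ^ 2 * h0

theorem q3_div {a : Fin 4 → ℂ} {x0 y0 : ℂ} (h : x0 ≠ 0 ∨ y0 ≠ 0) (h0 : q3 a x0 y0 = 0) :
    ∃ b : Fin 3 → ℂ, ∀ x y, q3 a x y = (y0 * x - x0 * y) * q2 b x y := by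
  simp only [q3, q2] at h0 ⊢
  rcases h with h | h
  · refine ⟨![-(a 1 + y0 * ((a 2 + y0 * (a 3 / x0)) / x0)) / x0,
      -(a 2 + y0 * (a 3 / x0)) / x0, - a 3 / x0], fun x y => ?_⟩
    simp only [Matrix.cons_val_zero, Matrix.cons_val_one, Matrix.cons_val]
    field_simp
    linear_combination x ^ 3 * h0
  · refine ⟨![a 0 / y0, (a 1 + x0 * (a 0 / y0)) / y0,
      (a 2 + x0 * ((a 1 + x0 * (a 0 / y0)) / y0)) / y0], fun x y => ?_⟩
    simp only [Matrix.cons_val_zero, Matrix.cons_val_one, Matrix.cons_val]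
    field_simp
    linear_combination y ^ 3 * h0

/-- division of a quadratic form by a quadratic form -/
theorem dvd_q2 {u κ : Fin 3 → ℂ} (hu : ∃ x y, q2 u x y ≠ 0) {F G : ℂ → ℂ → ℂ}
    (hF : IsPoly F) (hG : IsPoly G) (h : ∀ x y, q2 κ x y * F x y = q2 u x y * G x y)
    (hr : ∀ x y, (x ≠ 0 ∨ y ≠ 0) → q2 u x y = 0 → F x y ≠ 0) :
    ∃ k : ℂ, ∀ x y, q2 κ x y = k * q2 u x y := by
  obtain ⟨x1, y1, hn1, hr1⟩ := q2_root u
  obtain ⟨b, hb⟩ := q2_div hn1 hr1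
  have hκ1 : q2 κ x1 y1 = 0 := by
    have := h x1 y1
    rw [hr1, zero_mul] at this
    exact (mul_eq_zero.mp this).resolve_right (hr x1 y1 hn1 hr1)
  obtain ⟨d, hd⟩ := q2_div hn1 hκ1
  have h1 : ∀ x y, q1 d x y * F x y = q1 b x y * G x y := by
    refine (isPoly_lin x1 y1).cancel ((isPoly_q1 d).mul hF) ((isPoly_q1 b).mul hG) (lin_ne hn1) ?_
    intro x y
    have := h x y
    rw [hd, hb] at this
    linear_combination this
  obtain ⟨x2, y2, hn2, hr2⟩ := q1_root b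
  have hu2 : q2 u x2 y2 = 0 := by rw [hb, hr2, mul_zero]
  have hκ2 : q1 d x2 y2 = 0 := by
    have := h1 x2 y2
    rw [hr2, zero_mul] at this
    exact (mul_eq_zero.mp this).resolve_right (hr x2 y2 hn2 hu2)
  obtain ⟨b', hb'⟩ := q1_div hn2 hr2
  obtain ⟨d', hd'⟩ := q1_div hn2 hκ2
  have hb0 : b' ≠ 0 := by
    rintro rfl
    obtain ⟨x, y, hxy⟩ := hu
    apply hxy
    rw [hb, hb', mul_zero, mul_zero]
  refine ⟨d' / b', fun x y => ?_⟩
  rw [hd, hd', hb, hb']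
  field_simp

/-- division of a cubic form by a quadratic form -/
theorem dvd_q3 {u : Fin 3 → ℂ} {P : Fin 4 → ℂ} (hu : ∃ x y, q2 u x y ≠ 0) {F G : ℂ → ℂ → ℂ}
    (hF : IsPoly F) (hG : IsPoly G) (h : ∀ x y, q3 P x y * F x y = q2 u x y * G x y)
    (hr : ∀ x y, (x ≠ 0 ∨ y ≠ 0) → q2 u x y = 0 → F x y ≠ 0) :
    ∃ m : Fin 2 → ℂ, ∀ x y, q3 P x y = q1 m x y * q2 u x y := by
  obtain ⟨x1, y1, hn1, hr1⟩ := q2_root u
  obtain ⟨b, hb⟩ := q2_div hn1 hr1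
  have hκ1 : q3 P x1 y1 = 0 := by
    have := h x1 y1
    rw [hr1, zero_mul] at this
    exact (mul_eq_zero.mp this).resolve_right (hr x1 y1 hn1 hr1)
  obtain ⟨d, hd⟩ := q3_div hn1 hκ1
  have h1 : ∀ x y, q2 d x y * F x y = q1 b x y * G x y := by
    refine (isPoly_lin x1 y1).cancel ((isPoly_q2 d).mul hF) ((isPoly_q1 b).mul hG) (lin_ne hn1) ?_
    intro x y
    have := h x y
    rw [hd, hb] at this
    linear_combination this
  obtain ⟨x2, y2, hn2, hr2⟩ := q1_root b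
  have hu2 : q2 u x2 y2 = 0 := by rw [hb, hr2, mul_zero]
  have hκ2 : q2 d x2 y2 = 0 := by
    have := h1 x2 y2
    rw [hr2, zero_mul] at this
    exact (mul_eq_zero.mp this).resolve_right (hr x2 y2 hn2 hu2)
  obtain ⟨b', hb'⟩ := q1_div hn2 hr2
  obtain ⟨d', hd'⟩ := q2_div hn2 hκ2
  have hb0 : b' ≠ 0 := by
    rintro rfl
    obtain ⟨x, y, hxy⟩ := hu
    apply hxy
    rw [hb, hb', mul_zero, mul_zero]
  refine ⟨fun i => d' i / b', fun x y => ?_⟩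
  rw [hd, hd', hb, hb']
  simp only [q1]
  field_simp

/-- `r T = κ t` with `T, t` cubic without common zero, `r, κ` quadratic: `r = 0`. -/
theorem quad_zero {r κ : Fin 3 → ℂ} {T t : Fin 4 → ℂ}
    (h : ∀ x y, q2 r x y * q3 T x y = q2 κ x y * q3 t x y)
    (hr : ∀ x y, (x ≠ 0 ∨ y ≠ 0) → q3 t x y = 0 → q3 T x y ≠ 0) :
    ∀ x y, q2 r x y = 0 := by
  obtain ⟨x1, y1, hn1, hr1⟩ := q3_root t
  obtain ⟨b, hb⟩ := q3_div hn1 hr1
  have hκ1 : q2 r x1 y1 = 0 := by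
    have := h x1 y1
    rw [hr1, mul_zero] at this
    exact (mul_eq_zero.mp this).resolve_right (hr x1 y1 hn1 hr1)
  obtain ⟨d, hd⟩ := q2_div hn1 hκ1
  have h1 : ∀ x y, q1 d x y * q3 T x y = q2 κ x y * q2 b x y := by
    refine (isPoly_lin x1 y1).cancel ((isPoly_q1 d).mul (isPoly_q3 T))
      ((isPoly_q2 κ).mul (isPoly_q2 b)) (lin_ne hn1) ?_
    intro x y
    have := h x y
    rw [hd, hb] at this
    linear_combination this
  obtain ⟨x2, y2, hn2, hr2⟩ := q2_root b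
  have hκ2 : q1 d x2 y2 = 0 := by
    have := h1 x2 y2
    rw [hr2, mul_zero] at this
    exact (mul_eq_zero.mp this).resolve_right (hr x2 y2 hn2 (by rw [hb, hr2, mul_zero]))
  obtain ⟨b', hb'⟩ := q2_div hn2 hr2
  obtain ⟨d', hd'⟩ := q1_div hn2 hκ2
  have h2 : ∀ x y, d' * q3 T x y = q2 κ x y * q1 b' x y := by
    refine (isPoly_lin x2 y2).cancel ((isPoly_const d').mul (isPoly_q3 T))
      ((isPoly_q2 κ).mul (isPoly_q1 b')) (lin_ne hn2) ?_
    intro x y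
    have := h1 x y
    rw [hd', hb'] at this
    linear_combination this
  obtain ⟨x3, y3, hn3, hr3⟩ := q1_root b'
  have hd0 : d' = 0 := by
    have := h2 x3 y3
    rw [hr3, mul_zero] at this
    exact (mul_eq_zero.mp this).resolve_right
      (hr x3 y3 hn3 (by rw [hb, hb', hr3, mul_zero, mul_zero]))
  intro x y
  rw [hd, hd', hd0, mul_zero, mul_zero]

end Pool.Agent.W2helper54.SOS
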