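import Pool.Agent.W2helper54.SOS.Forms

/-!
# Piece K6 of MP_ce7760_an : the system in normal form
-/

open MvPolynomial

namespace Pool.Agent.W2helper54.SOS

open Pool.Agent.W2helper74.SOS

/-- the system in normal form -/
structure NS (g1 g2 : ℝ) (u r1 r2 κ : Fin 3 → ℂ) (t1 t2 t3 : Fin 4 → ℂ) : Prop where
  e21 : ∀ x y, g1 * q3 t1 x y = x * q2 u x y
  e22 : ∀ x y, g2 * q3 t2 x y = y * q2 u x y
  e1 : ∀ x y X Y, q2 r1 x y * q3 (cj t1) X Y + q2 r2 x y * q3 (cj t2) X Y +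
    q2 κ x y * q3 (cj t3) X Y =
      (x * X + y * Y) * (g1 * x * q2 (cj r1) X Y + g2 * y * q2 (cj r2) X Y)
  e0 : ∀ x y X Y, q3 t1 x y * q3 (cj t1) X Y + q3 t2 x y * q3 (cj t2) X Y +
    q3 t3 x y * q3 (cj t3) X Y =
      (x * X + y * Y) * (q2 u x y * q2 (cj u) X Y + q2 r1 x y * q2 (cj r1) X Y +
        q2 r2 x y * q2 (cj r2) X Y + q2 κ x y * q2 (cj κ) X Y) -
      (x * X + y * Y) ^ 2 * (g1 ^ 2 * x * X + g2 ^ 2 * y * Y) + (x * X + y * Y) ^ 3
  nz : ∀ x y : ℂ, (x ≠ 0 ∨ y ≠ 0) → q3 t1 x y ≠ 0 ∨ q3 t2 x y ≠ 0 ∨ q3 t3 x y ≠ 0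

theorem cj_cj {n : ℕ} (a : Fin n → ℂ) : cj (cj a) = a := by
  ext i; simp [cj]

theorem q3_cj (a : Fin 4 → ℂ) (x y : ℂ) : q3 (cj a) x y = star (q3 a (star x) (star y)) := by
  simp [q3, cj]

theorem q2_cj (a : Fin 3 → ℂ) (x y : ℂ) : q2 (cj a) x y = star (q2 a (star x) (star y)) := by
  simp [q2, cj]

/-- `q^*` for quadratic forms -/
def st2 (a : Fin 3 → ℂ) : Fin 3 → ℂ := ![star (a 2), - star (a 1), star (a 0)]

/-- `q^*` for cubic forms -/
def st3 (a : Fin 4 → ℂ) : Fin 4 → ℂ := ![star (a 3), - star (a 2), star (a 1), - star (a 0)]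

theorem q2_st (a : Fin 3 → ℂ) (x y : ℂ) : q2 (st2 a) x y = q2 (cj a) (-y) x := by
  simp only [q2, st2, cj, Matrix.cons_val_zero, Matrix.cons_val_one, Matrix.cons_val]
  ring

theorem q3_st (a : Fin 4 → ℂ) (x y : ℂ) : q3 (st3 a) x y = q3 (cj a) (-y) x := by
  simp only [q3, st3, cj, Matrix.cons_val_zero, Matrix.cons_val_one, Matrix.cons_val]
  ring

theorem st3_zero {a : Fin 4 → ℂ} (h : ∀ x y, q3 (st3 a) x y = 0) : a = 0 := by
  have h0 := q3_eq_zero h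
  ext i
  have e0 := congrFun h0 0
  have e1 := congrFun h0 1
  have e2 := congrFun h0 2
  have e3 := congrFun h0 3
  simp [st3] at e0 e1 e2 e3
  fin_cases i
  · exact e3
  · exact e2
  · exact e1
  · exact e0

theorem st2_zero {a : Fin 3 → ℂ} (h : ∀ x y, q2 (st2 a) x y = 0) : a = 0 := by
  have h0 := q2_eq_zero h
  ext i
  have e0 := congrFun h0 0
  have e1 := congrFun h0 1
  have e2 := congrFun h0 2
  simp [st2] at e0 e1 e2
  fin_cases i
  · exact e2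
  · exact e1
  · exact e0

/-- a functional killing three vectors of `ℂ^4` -/
theorem exists_functional (a b c : Fin 4 → ℂ) : ∃ Θ : Fin 4 → ℂ, Θ ≠ 0 ∧
    ∑ i, Θ i * a i = 0 ∧ ∑ i, Θ i * b i = 0 ∧ ∑ i, Θ i * c i = 0 := by
  have h := Matrix.exists_mulVec_eq_zero_iff (M := Matrix.of ![a, b, c, 0]) |>.mpr
    (Matrix.det_eq_zero_of_row_eq_zero 3 (fun j => by simp))
  obtain ⟨v, hv, h0⟩ := h
  refine ⟨v, hv, ?_, ?_, ?_⟩
  · have := congrFun h0 0
    simpa [Matrix.mulVec, dotProduct, mul_comm] using this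
  · have := congrFun h0 1
    simpa [Matrix.mulVec, dotProduct, mul_comm] using this
  · have := congrFun h0 2
    simpa [Matrix.mulVec, dotProduct, mul_comm] using this

end Pool.Agent.W2helper54.SOS
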